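import Pool.Agent.V5helper80.Rt.Circ

/-!
# Labelled oriented graphs in which every vertex is the terminal vertex of at most one edge
-/

set_option autoImplicit false

namespace Pool.Agent.V5helper80.Rt

open Pool.Agent.V5helper80.Rel Pool.Agent.V5helper80.One
open Pool.Agent.TH625.LOG Pool.Agent.N819.LT

variable {V E : Type} {L : LOG V E} {B : Set E}

/-! ### circuits -/

/-- circuits in the graph with the edges `{ter e, lab e}`: outside `B` it is a forest, the edge `b` of
`B` and the walk `c b` form a circuit; the circuits are ordered by `ρ`, and `q b` is a vertex whose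
component is not met by the earlier circuits and the initial vertices of their edges, and such that
the crossing word of the circuit of `b` is not trivial -/
structure Circs (L : LOG V E) (B : Set E) (c : E → List (E × Bool)) (ρ : E → ℕ) (q : E → V) :
    Prop where
  forest : Forest (fun e : {e // e ∉ B} => L.ter e.1) fun e => L.lab e.1
  circ : ∀ b ∈ B, Walk L (L.lab b) (c b) (L.ter b) ∧ ∀ p ∈ c b, p.1 ∉ B
  inj : ∀ b ∈ B, ∀ b' ∈ B, ρ b = ρ b' → b = b'
  tri : ∀ b ∈ B, ∀ b' ∈ B, ρ b' < ρ b → ∀ p ∈ (b', true) :: c b',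
    ¬ Lnk L (q b) (L.lab p.1) ∧ ¬ Lnk L (q b) (L.ini p.1)
  tst : ∀ b ∈ B, cw L (Lnk L (q b)) ((b, true) :: c b) ≠ 1

theorem Walk.lnk : ∀ (l : List (E × Bool)) {v w : V}, Walk L v l w →
    ∀ p ∈ l, Lnk L v (L.lab p.1)
  | [], _, _, _, p, hp => absurd hp List.not_mem_nil
  | q :: l, v, w, h, p, hp => by
    obtain ⟨h1, h2⟩ := h
    have h3 : Lnk L v (L.lab q.1) := by
      rw [← h1]
      unfold st
      split_ifs
      · exact lnk_edge q.1
      · exact Relation.EqvGen.refl _
    rcases List.mem_cons.1 hp with h | h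
    · rw [h]
      exact h3
    · have h4 := Walk.lnk l h2 p h
      refine Relation.EqvGen.trans _ _ _ h3 (Relation.EqvGen.trans _ (en L q) _ ?_ h4)
      unfold en
      split_ifs
      · exact Relation.EqvGen.refl _
      · exact Relation.EqvGen.symm _ _ (lnk_edge q.1)

open Classical in
/-- **The theorem on circuits.** -/
theorem Circs.locInd [Fintype V] [Fintype E] [Nonempty V] {c : E → List (E × Bool)} {ρ : E → ℕ}
    {q : E → V} (h : Circs L B c ρ q) (hS : Sqs L B) : LocInd L.G := by
  obtain ⟨C, hC⟩ := exists_cn B h.forest fun b hb => ⟨c b, h.circ b hb⟩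
  have hne : ∀ {u v : V}, ¬ Lnk L u v → C.ka v ≠ rp L u := by
    intro u v h1 h2
    rw [hC] at h2
    exact h1 (rp_eq.1 h2.symm)
  refine Cn.Wds.main (C := C) (w := fun b => tw L (wl ((b, true) :: c b))) (ρ := ρ)
    (pv := fun b => rp L (q b)) ⟨h.inj, ?_, ?_, ?_⟩ hS
  · intro b hb
    exact eqv_circ (c b) (h.circ b hb).1 (h.circ b hb).2
  · intro b hb b' hb' hlt
    refine tw_mem (P := fun e => C.ka (L.lab e) ≠ rp L (q b) ∧ C.ka (L.ini e) ≠ rp L (q b))
      (fun e he => he) (mem_wd_wl _ fun p hp => ?_)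
    obtain ⟨h1, h2⟩ := h.tri b hb b' hb' hlt p hp
    exact ⟨hne h1, hne h2⟩
  · intro b hb
    have h1 : C.xh (rp L (q b)) = xP L (Lnk L (q b)) := by
      funext v
      unfold Cn.xh xP
      rw [hC]
      by_cases h2 : Lnk L (q b) v
      · rw [if_pos h2, if_pos (rp_eq.2 h2).symm]
      · rw [if_neg h2, if_neg fun h3 => h2 (rp_eq.1 h3.symm)]
    have hw : Walk L (L.ter b) ((b, true) :: c b) (L.ter b) := ⟨if_pos rfl, by
      have : en L (b, true) = L.lab b := if_pos rfl
      rw [this]
      exact (h.circ b hb).1⟩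
    rw [h1, ev2_tw]
    refine cross_ne (Lnk L (q b)) (Lnk L (q b) (L.ter b)) _ _ hw (fun p hp => ?_) (h.tst b hb)
    have h3 := Walk.lnk _ hw p hp
    exact ⟨fun h4 => Relation.EqvGen.trans _ _ _ h4 (Relation.EqvGen.symm _ _ h3),
      fun h4 => Relation.EqvGen.trans _ _ _ h4 h3⟩

/-! ### chains as lists -/

/-- the element of the free group of a list of edges -/
def ofl (l : List E) : FreeGroup E := (l.map FreeGroup.of).prod

theorem ev_ofl {H : Type} [Group H] (x : V → H) (l : List E) : ev L x (ofl l) = ec L x l := by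
  induction l with
  | nil => exact map_one _
  | cons e l ih =>
    have h : ofl (e :: l) = FreeGroup.of e * ofl l := by
      unfold ofl
      rw [List.map_cons, List.prod_cons]
    rw [h, map_mul, ev_of, ih, ec_cons]

theorem ev_wl {H : Type} [Group H] (x : V → H) (l : List (E × Bool)) :
    ev L x (wl l) = ew L x l := by
  induction l with
  | nil => exact map_one _
  | cons p l ih =>
    rw [wl_cons, map_mul, ih, ew_cons]
    congr 1
    unfold sg e1
    split_ifs
    · exact ev_of _ _
    · rw [map_inv, ev_of]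

/-- the chains as elements of the free group -/
def Ch.cn (C : Ch L B) : Cn L B where
  ka := C.ka
  ch v := ofl (C.ch v)
  step e he := by
    refine ⟨(C.step e he).1, ?_⟩
    rw [(C.step e he).2]
    unfold ofl
    rw [List.map_cons, List.prod_cons]
  cyc e he := by rw [(C.base e he).1, C.cyc e he]
  val H _ y y' hN v := by
    rw [ev_ofl]
    exact C.val hN v

theorem Ch.eqv (C : Ch L B) (b : E) (hb : b ∈ B) (n : ℕ) (hn : C.Pre b n) :
    Eqv L B b (tw L (wl (C.wd b n))) := by
  intro H _ Y hY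
  simp only [ev2_tw, ev_wl]
  constructor
  · intro h m
    exact (C.seq_iff b Y hY n hn m).1 ((C.rel_iff (hY (m + n)) b hb).1 (h (m + n)))
  · intro h m
    refine (C.rel_iff (hY m) b hb).2 ?_
    have h1 := (C.seq_iff b Y hY n hn (m - n)).2 (h (m - n))
    rw [sub_add_cancel] at h1
    exact h1

/-- the exponent of a word with positive exits, in the component of the circuit -/
theorem exps (y : V → ℤ) (w : List (E × Bool)) (h0 : ∀ v, y v = 0 ∨ y v = 1)
    (h1 : ∀ p ∈ w, y (L.lab p.1) = 1) (h2 : ∀ e, (e, false) ∈ w → y (L.ini e) = 1) :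
    (ew L (fun v => Multiplicative.ofAdd (y v)) w).toAdd ≤ 0 ∧
      ((∃ e, (e, true) ∈ w ∧ y (L.ini e) ≠ 1) →
        (ew L (fun v => Multiplicative.ofAdd (y v)) w).toAdd < 0) := by
  induction w with
  | nil =>
    refine ⟨le_refl _, ?_⟩
    rintro ⟨e, he, -⟩
    exact absurd he List.not_mem_nil
  | cons p w ih =>
    obtain ⟨i1, i2⟩ := ih (fun q hq => h1 q (List.mem_cons_of_mem _ hq))
      (fun e he => h2 e (List.mem_cons_of_mem _ he))
    rw [ew_cons, toAdd_mul]
    have hl := h1 p List.mem_cons_self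
    obtain ⟨e, σ⟩ := p
    simp only at hl
    cases σ with
    | true =>
      have h3 : (e1 L (fun v => Multiplicative.ofAdd (y v)) (e, true)).toAdd =
          y (L.ini e) - 1 := by
        show -(y (L.lab e)) + y (L.ini e) = _
        rw [hl]; ring
      rw [h3]
      refine ⟨?_, ?_⟩
      · rcases h0 (L.ini e) with h | h
        · rw [h]; linarith
        · rw [h]; linarith
      · rintro ⟨f, hf, hf'⟩
        rcases List.mem_cons.1 hf with h4 | h4
        · rw [(Prod.mk.inj h4).1] at hf'
          rcases h0 (L.ini e) with h | h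
          · rw [h]; linarith
          · exact absurd h hf'
        · have := i2 ⟨f, h4, hf'⟩
          rcases h0 (L.ini e) with h | h
          · rw [h]; linarith
          · rw [h]; linarith
    | false =>
      have h3 : (e1 L (fun v => Multiplicative.ofAdd (y v)) (e, false)).toAdd = 0 := by
        show -(-(y (L.lab e)) + y (L.ini e)) = 0
        rw [hl, h2 e List.mem_cons_self]; ring
      rw [h3, zero_add]
      refine ⟨i1, ?_⟩
      rintro ⟨f, hf, hf'⟩
      refine i2 ⟨f, ?_, hf'⟩
      rcases List.mem_cons.1 hf with h4 | h4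
      · exact absurd (Prod.mk.inj h4).2 (by simp)
      · exact h4

/-- the exponent of a word with positive exits, in another component -/
theorem exps' (y : V → ℤ) (w : List (E × Bool)) (h0 : ∀ v, y v = 0 ∨ y v = 1)
    (h1 : ∀ p ∈ w, y (L.lab p.1) = 0) (h2 : ∀ e, (e, false) ∈ w → y (L.ini e) = 0) :
    0 ≤ (ew L (fun v => Multiplicative.ofAdd (y v)) w).toAdd ∧
      ((∃ e, (e, true) ∈ w ∧ y (L.ini e) = 1) →
        0 < (ew L (fun v => Multiplicative.ofAdd (y v)) w).toAdd) := by
  induction w with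
  | nil =>
    refine ⟨le_refl _, ?_⟩
    rintro ⟨e, he, -⟩
    exact absurd he List.not_mem_nil
  | cons p w ih =>
    obtain ⟨i1, i2⟩ := ih (fun q hq => h1 q (List.mem_cons_of_mem _ hq))
      (fun e he => h2 e (List.mem_cons_of_mem _ he))
    rw [ew_cons, toAdd_mul]
    have hl := h1 p List.mem_cons_self
    obtain ⟨e, σ⟩ := p
    simp only at hl
    cases σ with
    | true =>
      have h3 : (e1 L (fun v => Multiplicative.ofAdd (y v)) (e, true)).toAdd = y (L.ini e) := by
        show -(y (L.lab e)) + y (L.ini e) = _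
        rw [hl]; ring
      rw [h3]
      refine ⟨?_, ?_⟩
      · rcases h0 (L.ini e) with h | h
        · rw [h]; linarith
        · rw [h]; linarith
      · rintro ⟨f, hf, hf'⟩
        rcases List.mem_cons.1 hf with h4 | h4
        · rw [(Prod.mk.inj h4).1] at hf'
          rw [hf']; linarith
        · have := i2 ⟨f, h4, hf'⟩
          rcases h0 (L.ini e) with h | h
          · rw [h]; linarith
          · rw [h]; linarith
    | false =>
      have h3 : (e1 L (fun v => Multiplicative.ofAdd (y v)) (e, false)).toAdd = 0 := by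
        show -(-(y (L.lab e)) + y (L.ini e)) = 0
        rw [hl, h2 e List.mem_cons_self]; ring
      rw [h3, zero_add]
      refine ⟨i1, ?_⟩
      rintro ⟨f, hf, hf'⟩
      refine i2 ⟨f, ?_, hf'⟩
      rcases List.mem_cons.1 hf with h4 | h4
      · exact absurd (Prod.mk.inj h4).2 (by simp)
      · exact h4

open Classical in
/-- the exponent of the new letter -/
theorem ex_xh (C : Cn L B) (p : V) (w : List (E × Bool)) :
    ex (ev L (C.xh p) (wl w)) =
      ew L (fun v => Multiplicative.ofAdd (if C.ka v = p then (1 : ℤ) else 0)) w := by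
  rw [ev_wl, map_ew]
  have h1 : (fun v => ex (C.xh p v)) =
      fun v => Multiplicative.ofAdd (if C.ka v = p then (1 : ℤ) else 0) := by
    funext v
    by_cases h : C.ka v = p
    · rw [C.xh_eq h, map_mul, ex_inA, ex_zz, one_mul, if_pos h]
    · rw [C.xh_ne h, ex_inA, if_neg h]
      rfl
  rw [h1]

/-! ### the levels of a circuit of labels -/

variable (L) in
/-- the vertices in the chain of labels which begins with a vertex: `v` is followed by `lab e`, if
`ter e = v` -/
def Fwd : V → V → Prop := Relation.ReflTransGen fun u v => ∃ e, L.ter e = u ∧ L.lab e = v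

variable (L) in
/-- the edges which belong to the circuit of labels through `b`, up to a depth -/
def Dep (b : E) : ℕ → Set E
  | 0 => {e | Fwd L (L.ter b) (L.ter e)}
  | n + 1 => Dep b n ∪ {e | ∃ f ∈ Dep b n, Fwd L (L.ini f) (L.ter e)}

variable (L) in
/-- the components which are met by the circuit of `b` and by its first exits -/
def Sup (b : E) : Set V :=
  {v | Lnk L (L.ter b) v ∨ ∃ n, (∀ m < n, ∀ f ∈ Dep L b m, Lnk L (L.ter b) (L.ini f)) ∧
    ∃ e ∈ Dep L b n, Lnk L (L.ini e) v}

theorem Fwd.lnk {u v : V} (h : Fwd L u v) : Lnk L u v := by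
  induction h with
  | refl => exact Relation.EqvGen.refl _
  | tail _ h ih =>
    obtain ⟨e, rfl, rfl⟩ := h
    exact Relation.EqvGen.trans _ _ _ ih (lnk_edge e)

section ch
variable (C : Ch L B)

theorem Ch.ka_edge (e : E) : C.ka (L.ter e) = C.ka (L.lab e) := by
  by_cases he : e ∈ B
  · rw [(C.base e he).1, C.cyc e he]
  · exact (C.step e he).1

theorem Ch.fwd_ka (v : V) : Fwd L v (C.ka v) := by
  refine C.ind (P := fun v => Fwd L v (C.ka v)) ?_ ?_ v
  · intro v h _
    rw [h]
    exact Relation.ReflTransGen.refl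
  · intro e he ih
    rw [(C.step e he).1]
    exact Relation.ReflTransGen.head ⟨e, rfl, rfl⟩ ih

theorem Ch.lnk_iff (u v : V) : Lnk L u v ↔ C.ka u = C.ka v := by
  constructor
  · intro h
    induction h with
    | rel _ _ h =>
      obtain ⟨e, rfl, rfl⟩ := h
      exact C.ka_edge e
    | refl _ => rfl
    | symm _ _ _ ih => exact ih.symm
    | trans _ _ _ _ _ ih1 ih2 => exact ih1.trans ih2
  · intro h
    refine Relation.EqvGen.trans _ _ _ (C.fwd_ka u).lnk ?_
    rw [h]
    exact Relation.EqvGen.symm _ _ (C.fwd_ka v).lnk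

theorem Ch.fwd_iff (b : E) (hinj : Function.Injective L.ter) (v : V)
    (hv : C.ka v = L.ter b) (e : E) :
    Fwd L v (L.ter e) ↔ e ∈ C.ch v ∨ e ∈ b :: C.ch (L.lab b) := by
  have hbase : ∀ f ∈ B, C.ka (L.ter f) = L.ter b → f = b := by
    intro f hf h
    rw [(C.base f hf).1] at h
    exact hinj h
  constructor
  · intro h
    revert hv
    refine Relation.ReflTransGen.head_induction_on (motive := fun v _ => C.ka v = L.ter b →
      e ∈ C.ch v ∨ e ∈ b :: C.ch (L.lab b)) h ?_ ?_
    · intro hv
      by_cases he : e ∈ B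
      · rw [hbase e he hv]
        exact Or.inr List.mem_cons_self
      · rw [(C.step e he).2]
        exact Or.inl List.mem_cons_self
    · rintro v w ⟨f, rfl, rfl⟩ _ ih hv
      rcases ih (by rw [← C.ka_edge, hv]) with h1 | h1
      · by_cases hf : f ∈ B
        · rw [hbase f hf hv] at h1
          exact Or.inr (List.mem_cons_of_mem _ h1)
        · rw [(C.step f hf).2]
          exact Or.inl (List.mem_cons_of_mem _ h1)
      · exact Or.inr h1
  · have hch : ∀ v, e ∈ C.ch v → Fwd L v (L.ter e) := by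
      intro v
      refine C.ind (P := fun v => e ∈ C.ch v → Fwd L v (L.ter e)) ?_ ?_ v
      · intro v _ h2 h3
        rw [h2] at h3
        exact absurd h3 List.not_mem_nil
      · intro f hf ih h3
        rw [(C.step f hf).2] at h3
        rcases List.mem_cons.1 h3 with h4 | h4
        · rw [h4]
          exact Relation.ReflTransGen.refl
        · exact Relation.ReflTransGen.head ⟨f, rfl, rfl⟩ (ih h4)
    rintro (h | h)
    · exact hch v h
    · have h1 : Fwd L v (L.ter b) := by
        rw [← hv]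
        exact C.fwd_ka v
      refine Relation.ReflTransGen.trans h1 ?_
      rcases List.mem_cons.1 h with h2 | h2
      · rw [h2]
      · exact Relation.ReflTransGen.head ⟨b, rfl, rfl⟩ (hch _ h2)

/-- the edges up to a depth -/
theorem Ch.dep_eq (b : E) (hb : b ∈ B) (hinj : Function.Injective L.ter) (n : ℕ)
    (hn : ∀ e ∈ C.dp b n, C.ka (L.ini e) = L.ter b) : Dep L b n = C.dp b (n + 1) := by
  induction n with
  | zero =>
    ext e
    have h1 := C.fwd_iff b hinj (L.ter b) (C.base b hb).1 e
    rw [(C.base b hb).2] at h1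
    show Fwd L (L.ter b) (L.ter e) ↔ e ∈ b :: C.ch (L.lab b)
    rw [h1]
    simp
  | succ n ih =>
    have ih' := ih fun e he => hn e (C.dp_succ b n he)
    ext e
    show e ∈ Dep L b n ∨ (∃ f ∈ Dep L b n, Fwd L (L.ini f) (L.ter e)) ↔
      e ∈ C.dp b (n + 1) ∨ ∃ f ∈ C.dp b (n + 1), e ∈ C.ch (L.ini f)
    rw [ih']
    constructor
    · rintro (h | ⟨f, hf, h⟩)
      · exact Or.inl h
      · rcases (C.fwd_iff b hinj _ (hn f hf) e).1 h with h1 | h1
        · exact Or.inr ⟨f, hf, h1⟩
        · exact Or.inl (C.dp_mono b (show 1 ≤ n + 1 by omega) h1)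
    · rintro (h | ⟨f, hf, h⟩)
      · exact Or.inl h
      · exact Or.inr ⟨f, hf, (C.fwd_iff b hinj _ (hn f hf) e).2 (Or.inl h)⟩

end ch

open Classical in
/-- **Chains exist.** -/
theorem exists_ch (hinj : Function.Injective L.ter)
    (hwf : WellFounded fun u v => ∃ e, e ∉ B ∧ L.lab e = u ∧ L.ter e = v)
    (hcyc : ∀ b ∈ B, Relation.ReflTransGen (fun u v => ∃ e, e ∉ B ∧ L.ter e = u ∧ L.lab e = v)
      (L.lab b) (L.ter b)) : Nonempty (Ch L B) := by
  let F : V → V × List E := hwf.fix fun v rec =>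
    if h : ∃ e, e ∉ B ∧ L.ter e = v then
      ((rec (L.lab h.choose) ⟨h.choose, h.choose_spec.1, rfl, h.choose_spec.2⟩).1,
        h.choose :: (rec (L.lab h.choose) ⟨h.choose, h.choose_spec.1, rfl, h.choose_spec.2⟩).2)
    else (v, [])
  have hF : ∀ v, F v = if h : ∃ e, e ∉ B ∧ L.ter e = v then
      ((F (L.lab h.choose)).1, h.choose :: (F (L.lab h.choose)).2) else (v, []) := fun v =>
    hwf.fix_eq _ v
  have h0 : ∀ v, (¬ ∃ e, e ∉ B ∧ L.ter e = v) → F v = (v, []) := by
    intro v hv
    rw [hF, dif_neg hv]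
  have h1 : ∀ e, e ∉ B → F (L.ter e) = ((F (L.lab e)).1, e :: (F (L.lab e)).2) := by
    intro e he
    have h : ∃ f, f ∉ B ∧ L.ter f = L.ter e := ⟨e, he, rfl⟩
    have h2 : h.choose = e := hinj h.choose_spec.2
    rw [hF, dif_pos h, h2]
  have hb : ∀ e ∈ B, F (L.ter e) = (L.ter e, []) := by
    intro e he
    refine h0 _ ?_
    rintro ⟨f, hf, hfe⟩
    rw [hinj hfe] at hf
    exact hf he
  refine ⟨{ ka := fun v => (F v).1
            ch := fun v => (F v).2
            base := fun e he => by rw [hb e he]; exact ⟨rfl, rfl⟩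
            root := fun v hv => by
              rw [h0 v]
              · exact ⟨rfl, rfl⟩
              · rintro ⟨e, _, he⟩
                exact hv e he
            step := fun e he => by rw [h1 e he]; exact ⟨rfl, rfl⟩
            cyc := ?_ }⟩
  intro b hbB
  have h2 : ∀ v, Relation.ReflTransGen (fun u v => ∃ e, e ∉ B ∧ L.ter e = u ∧ L.lab e = v) v
      (L.ter b) → (F v).1 = L.ter b := by
    intro v h
    refine Relation.ReflTransGen.head_induction_on (motive := fun v _ => (F v).1 = L.ter b) h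
      ?_ ?_
    · rw [hb b hbB]
    · rintro v w ⟨e, he, rfl, rfl⟩ _ ih
      rw [h1 e he]
      exact ih
  exact h2 _ (hcyc b hbB)

/-- a set with one edge of every circuit of labels, in an order such that the components met by every
circuit and its first exits are not all met by the earlier ones -/
structure Ords (L : LOG V E) (B : Set E) (ρ : E → ℕ) (q : E → V) : Prop where
  wf : WellFounded fun u v => ∃ e, e ∉ B ∧ L.lab e = u ∧ L.ter e = v
  cyc : ∀ b ∈ B, Relation.ReflTransGen (fun u v => ∃ e, e ∉ B ∧ L.ter e = u ∧ L.lab e = v)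
    (L.lab b) (L.ter b)
  inj : ∀ b ∈ B, ∀ b' ∈ B, ρ b = ρ b' → b = b'
  sup : ∀ b ∈ B, q b ∈ Sup L b
  tri : ∀ b ∈ B, ∀ b' ∈ B, ρ b' < ρ b → q b ∉ Sup L b'

open Classical in
/-- **The theorem for graphs in which every vertex is the terminal vertex of at most one edge.** -/
theorem Ords.locInd [Finite E] [Nonempty V] {ρ : E → ℕ} {q : E → V} (h : Ords L B ρ q)
    (hinj : Function.Injective L.ter)
    (hac : WellFounded fun u v => ∃ e, L.ini e = u ∧ L.ter e = v) (hS : Sqs L B) :
    LocInd L.G := by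
  obtain ⟨C⟩ := exists_ch hinj h.wf h.cyc
  have hd : ∀ b : E, ∃ n : ℕ, b ∈ B → C.Pre b n ∧ (∀ e ∈ C.dp b n, C.ka (L.ini e) = L.ter b) ∧
      (∀ p ∈ C.wd b n, C.ka (L.lab p.1) = L.ter b) ∧
      (∀ e, (e, false) ∈ C.wd b n → C.ka (L.ini e) = L.ter b) ∧
      ∃ e, (e, true) ∈ C.wd b n ∧ C.ka (L.ini e) ≠ L.ter b := by
    intro b
    by_cases hb : b ∈ B
    · obtain ⟨n, hn⟩ := C.exists_depth hac b hb
      exact ⟨n, fun _ => hn⟩
    · exact ⟨0, fun hb' => absurd hb' hb⟩
  choose n hn using hd
  have hkb : ∀ b ∈ B, C.ka (L.ter b) = L.ter b := fun b hb => (C.base b hb).1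
  -- the edges of the words
  have hmem : ∀ b, ∀ p ∈ C.wd b (n b), p.1 ∈ C.dp b (n b + 1) := by
    rintro b ⟨f, σ⟩ hp
    cases σ with
    | true => exact (C.mem_wd b (n b)).1 f hp
    | false => exact C.dp_succ b (n b) ((C.mem_wd b (n b)).2.1 f hp)
  have hdep : ∀ b ∈ B, ∀ m ≤ n b, Dep L b m = C.dp b (m + 1) := by
    intro b hb m hm
    exact C.dep_eq b hb hinj m fun e he => (hn b hb).2.1 e (C.dp_mono b hm he)
  have hpre : ∀ b ∈ B, ∀ m < n b, ∀ f ∈ Dep L b m, Lnk L (L.ter b) (L.ini f) := by
    intro b hb m hm f hf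
    rw [hdep b hb m hm.le] at hf
    rw [C.lnk_iff, hkb b hb, (hn b hb).2.1 f (C.dp_mono b (by omega) hf)]
  -- the components which are met
  have hsup1 : ∀ b ∈ B, ∀ p ∈ C.wd b (n b), ∀ v, C.ka (L.ini p.1) = C.ka v → v ∈ Sup L b := by
    intro b hb p hp v hv
    refine Or.inr ⟨n b, hpre b hb, p.1, ?_, (C.lnk_iff _ _).2 hv⟩
    rw [hdep b hb _ le_rfl]
    exact hmem b p hp
  have hsup2 : ∀ b ∈ B, ∀ v ∈ Sup L b, C.ka v = L.ter b ∨
      (C.ka v ≠ L.ter b ∧ ∃ e, (e, true) ∈ C.wd b (n b) ∧ C.ka (L.ini e) = C.ka v) := by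
    intro b hb v hv
    by_cases hvb : C.ka v = L.ter b
    · exact Or.inl hvb
    · refine Or.inr ⟨hvb, ?_⟩
      rcases hv with h1 | ⟨m, h2, e, he, h3⟩
      · rw [C.lnk_iff, hkb b hb] at h1
        exact absurd h1.symm hvb
      · rw [C.lnk_iff] at h3
        have hmn : m ≤ n b := by
          by_contra hlt
          push Not at hlt
          obtain ⟨f, hf1, hf2⟩ := (hn b hb).2.2.2.2
          have hf3 := hmem b _ hf1
          rw [← hdep b hb _ le_rfl] at hf3
          have hf4 := h2 (n b) hlt f hf3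
          rw [C.lnk_iff, hkb b hb] at hf4
          exact hf2 hf4.symm
        rw [hdep b hb m hmn] at he
        have hed : e ∉ C.dp b (n b) := fun h4 => hvb (by rw [← h3, (hn b hb).2.1 e h4])
        have hmn' : m = n b := by
          by_contra hne
          exact hed (C.dp_mono b (by omega) he)
        subst hmn'
        exact ⟨e, (C.mem_wd b (n b)).2.2 e he hed, h3⟩
  refine Cn.Wds.main (C := C.cn) (w := fun b => tw L (wl (C.wd b (n b)))) (ρ := ρ)
    (pv := fun b => C.ka (q b)) ⟨h.inj, ?_, ?_, ?_⟩ hS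
  · intro b hb
    exact C.eqv b hb (n b) (hn b hb).1
  · intro b hb b' hb' hlt
    refine tw_mem (P := fun e => C.ka (L.lab e) ≠ C.ka (q b) ∧ C.ka (L.ini e) ≠ C.ka (q b))
      (fun e he => he) (mem_wd_wl _ fun p hp => ?_)
    have h1 := h.tri b hb b' hb' hlt
    refine ⟨fun h2 => h1 (Or.inl ?_), fun h2 => h1 (hsup1 b' hb' p hp _ h2)⟩
    have h3 : C.ka (L.lab p.1) = C.ka (q b) := h2
    rw [C.lnk_iff, hkb b' hb', ← (hn b' hb').2.2.1 p hp, h3]
  · intro b hb htriv
    rw [ev2_tw] at htriv
    have h1 := congrArg (fun x => (ex x).toAdd) htriv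
    rw [ex_xh, map_one, toAdd_one] at h1
    have h0 : ∀ v, (if C.cn.ka v = C.ka (q b) then (1 : ℤ) else 0) = 0 ∨
        (if C.cn.ka v = C.ka (q b) then (1 : ℤ) else 0) = 1 := by
      intro v
      split_ifs
      · exact Or.inr rfl
      · exact Or.inl rfl
    rcases hsup2 b hb _ (h.sup b hb) with h2 | ⟨h2, e, he, h3⟩
    · have h4 := (exps (L := L) (fun v => if C.cn.ka v = C.ka (q b) then (1 : ℤ) else 0)
        (C.wd b (n b)) h0 (fun p hp => if_pos (by
          rw [h2]
          exact (hn b hb).2.2.1 p hp)) (fun e he => if_pos (by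
          rw [h2]
          exact (hn b hb).2.2.2.1 e he))).2 (by
            obtain ⟨e, he, hne⟩ := (hn b hb).2.2.2.2
            refine ⟨e, he, ?_⟩
            rw [if_neg (by rw [h2]; exact hne)]
            norm_num)
      rw [h1] at h4
      exact absurd h4 (lt_irrefl _)
    · have h4 := (exps' (L := L) (fun v => if C.cn.ka v = C.ka (q b) then (1 : ℤ) else 0)
        (C.wd b (n b)) h0 (fun p hp => if_neg (fun h5 => h2 (by
          rw [← h5]
          exact (hn b hb).2.2.1 p hp))) (fun e he => if_neg (fun h5 => h2 (by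
          rw [← h5]
          exact (hn b hb).2.2.2.1 e he)))).2 ⟨e, he, if_pos h3⟩
      rw [h1] at h4
      exact absurd h4 (lt_irrefl _)

end Pool.Agent.V5helper80.Rt
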