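import Pool.Agent.TH625.LOG.Core

/-!
# Chains of labels and the words of the cycles of labels
-/

set_option autoImplicit false

namespace Pool.Agent.V5helper80.Rt

open Pool.Agent.TH625.LOG

variable {V E : Type} (L : LOG V E)

section ev
variable {H : Type} [Group H]

/-- the element `x_lab⁻¹ x_ini` -/
def pr (x : V → H) (e : E) : H := (x (L.lab e))⁻¹ * x (L.ini e)

/-- the value of a list of edges -/
def ec (x : V → H) (w : List E) : H := (w.map (pr L x)).prod

/-- the value of a signed edge -/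
def e1 (x : V → H) (p : E × Bool) : H := if p.2 = true then pr L x p.1 else (pr L x p.1)⁻¹

/-- the value of a word in the edges -/
def ew (x : V → H) (w : List (E × Bool)) : H := (w.map (e1 L x)).prod

variable {L}

theorem ec_nil (x : V → H) : ec L x [] = 1 := rfl

theorem ec_cons (x : V → H) (e : E) (w : List E) : ec L x (e :: w) = pr L x e * ec L x w := by
  unfold ec
  rw [List.map_cons, List.prod_cons]

theorem ew_nil (x : V → H) : ew L x [] = 1 := rfl

theorem ew_cons (x : V → H) (p : E × Bool) (w : List (E × Bool)) :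
    ew L x (p :: w) = e1 L x p * ew L x w := by
  unfold ew
  rw [List.map_cons, List.prod_cons]

theorem ew_append (x : V → H) (w w' : List (E × Bool)) :
    ew L x (w ++ w') = ew L x w * ew L x w' := by
  unfold ew
  rw [List.map_append, List.prod_append]

/-- the positive word -/
def ps (l : List E) : List (E × Bool) := l.map fun e => (e, true)

/-- the inverse word -/
def ng (l : List E) : List (E × Bool) := l.reverse.map fun e => (e, false)

theorem mem_ps {l : List E} {p : E × Bool} : p ∈ ps l ↔ p.1 ∈ l ∧ p.2 = true := by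
  unfold ps
  rw [List.mem_map]
  constructor
  · rintro ⟨e, he, rfl⟩
    exact ⟨he, rfl⟩
  · rintro ⟨h1, h2⟩
    exact ⟨p.1, h1, Prod.ext rfl h2.symm⟩

theorem mem_ng {l : List E} {p : E × Bool} : p ∈ ng l ↔ p.1 ∈ l ∧ p.2 = false := by
  unfold ng
  rw [List.mem_map]
  constructor
  · rintro ⟨e, he, rfl⟩
    exact ⟨List.mem_reverse.1 he, rfl⟩
  · rintro ⟨h1, h2⟩
    exact ⟨p.1, List.mem_reverse.2 h1, Prod.ext rfl h2.symm⟩

theorem ew_ps (x : V → H) (l : List E) : ew L x (ps l) = ec L x l := by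
  induction l with
  | nil => rfl
  | cons e l ih =>
    have h : ps (e :: l) = (e, true) :: ps l := rfl
    rw [h, ew_cons, ec_cons, ih]
    rfl

theorem ew_ng (x : V → H) (l : List E) : ew L x (ng l) = (ec L x l)⁻¹ := by
  induction l with
  | nil => rw [ec_nil, inv_one]; rfl
  | cons e l ih =>
    have h : ng (e :: l) = ng l ++ [(e, false)] := by
      unfold ng
      rw [List.reverse_cons, List.map_append]
      rfl
    rw [h, ew_append, ec_cons, ih, ew_cons, ew_nil, mul_one, mul_inv_rev]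
    rfl

theorem map_pr {H' : Type} [Group H'] (F : H →* H') (x : V → H) (e : E) :
    F (pr L x e) = pr L (fun v => F (x v)) e := by
  unfold pr
  rw [map_mul, map_inv]

theorem map_ec {H' : Type} [Group H'] (F : H →* H') (x : V → H) (w : List E) :
    F (ec L x w) = ec L (fun v => F (x v)) w := by
  induction w with
  | nil => exact map_one F
  | cons e w ih => rw [ec_cons, ec_cons, map_mul, map_pr, ih]

theorem map_ew {H' : Type} [Group H'] (F : H →* H') (x : V → H) (w : List (E × Bool)) :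
    F (ew L x w) = ew L (fun v => F (x v)) w := by
  induction w with
  | nil => exact map_one F
  | cons p w ih =>
    rw [ew_cons, ew_cons, map_mul, ih]
    congr 1
    unfold e1
    split_ifs
    · exact map_pr F x p.1
    · rw [map_inv, map_pr]

variable (L) in
/-- the relations except those in `B`, for two successive levels -/
def Nx (B : Set E) (y y' : V → H) : Prop :=
  ∀ e, e ∉ B → y' (L.ter e) = pr L y e * y' (L.lab e)

end ev

/-- chains of labels up to the base points -/
structure Ch (B : Set E) where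
  ka : V → V
  ch : V → List E
  base : ∀ e ∈ B, ka (L.ter e) = L.ter e ∧ ch (L.ter e) = []
  root : ∀ v, (∀ e, L.ter e ≠ v) → ka v = v ∧ ch v = []
  step : ∀ e, e ∉ B → ka (L.ter e) = ka (L.lab e) ∧ ch (L.ter e) = e :: ch (L.lab e)
  cyc : ∀ e ∈ B, ka (L.lab e) = L.ter e

variable {L} {B : Set E} (C : Ch L B)

/-- induction along the chains -/
theorem Ch.ind {P : V → Prop} (h0 : ∀ v, C.ka v = v → C.ch v = [] → P v)
    (h1 : ∀ e, e ∉ B → P (L.lab e) → P (L.ter e)) (v : V) : P v := by
  have h : ∀ (n : ℕ) (v : V), (C.ch v).length = n → P v := by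
    intro n
    induction n with
    | zero =>
      intro v hv
      by_cases hr : ∀ e, L.ter e ≠ v
      · exact h0 v (C.root v hr).1 (C.root v hr).2
      · push Not at hr
        obtain ⟨e, rfl⟩ := hr
        by_cases he : e ∈ B
        · exact h0 _ (C.base e he).1 (C.base e he).2
        · rw [(C.step e he).2, List.length_cons] at hv
          exact absurd hv (Nat.succ_ne_zero _)
    | succ n ih =>
      intro v hv
      by_cases hr : ∀ e, L.ter e ≠ v
      · rw [(C.root v hr).2] at hv
        exact absurd hv (Nat.succ_ne_zero _).symm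
      · push Not at hr
        obtain ⟨e, rfl⟩ := hr
        by_cases he : e ∈ B
        · rw [(C.base e he).2] at hv
          exact absurd hv (Nat.succ_ne_zero _).symm
        · refine h1 e he (ih _ ?_)
          rw [(C.step e he).2, List.length_cons] at hv
          omega
  exact h _ v rfl

section ev
variable {H : Type} [Group H]

/-- the values of a solution -/
theorem Ch.val {y y' : V → H} (hN : Nx L B y y') (v : V) :
    y' v = ec L y (C.ch v) * y' (C.ka v) := by
  refine C.ind (P := fun v => y' v = ec L y (C.ch v) * y' (C.ka v)) ?_ ?_ v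
  · intro v h1 h2
    rw [h1, h2, ec_nil, one_mul]
  · intro e he ih
    rw [(C.step e he).1, (C.step e he).2, ec_cons, mul_assoc, ← ih]
    exact hN e he

/-- the construction of the next level -/
theorem Ch.nx_mk (y z : V → H) : Nx L B y fun v => ec L y (C.ch v) * z (C.ka v) := by
  intro e he
  simp only
  rw [(C.step e he).1, (C.step e he).2, ec_cons, mul_assoc]

/-- the relation of a base edge -/
theorem Ch.rel_iff {y y' : V → H} (hN : Nx L B y y') (b : E) (hb : b ∈ B) :
    y' (L.ter b) = pr L y b * y' (L.lab b) ↔ ew L y (ps (b :: C.ch (L.lab b))) = 1 := by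
  rw [ew_ps, ec_cons, C.val hN (L.lab b), C.cyc b hb, ← mul_assoc]
  constructor
  · intro h
    exact (mul_eq_right.1 h.symm)
  · intro h
    rw [h, one_mul]

/-- the substitution -/
def Ch.sg (p : E × Bool) : List (E × Bool) :=
  if p.2 = true then ng (C.ch (L.lab p.1)) ++ ps (C.ch (L.ini p.1))
  else ng (C.ch (L.ini p.1)) ++ ps (C.ch (L.lab p.1))

theorem Ch.ew_sg {y y' : V → H} (hN : Nx L B y y') (s : V) (w : List (E × Bool))
    (hw : ∀ p ∈ w, C.ka (L.lab p.1) = s ∧ C.ka (L.ini p.1) = s) :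
    ew L y' w = (y' s)⁻¹ * ew L y (w.flatMap C.sg) * y' s := by
  induction w with
  | nil =>
    rw [List.flatMap_nil, ew_nil, ew_nil, mul_one, inv_mul_cancel]
  | cons p w ih =>
    have ih' := ih fun q hq => hw q (List.mem_cons_of_mem _ hq)
    obtain ⟨h1, h2⟩ := hw p List.mem_cons_self
    have h3 : e1 L y' p = (y' s)⁻¹ * ew L y (C.sg p) * y' s := by
      have h4 : pr L y' p.1 = (y' s)⁻¹ * (ec L y (C.ch (L.lab p.1)))⁻¹ *
          ec L y (C.ch (L.ini p.1)) * y' s := by
        unfold pr
        rw [C.val hN (L.lab p.1), C.val hN (L.ini p.1), h1, h2]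
        group
      unfold e1 Ch.sg
      split_ifs
      · rw [h4, ew_append, ew_ng, ew_ps]
        group
      · rw [h4, ew_append, ew_ng, ew_ps]
        group
    rw [List.flatMap_cons, ew_cons, ew_append, h3, ih']
    group

end ev

/-- the words of a base edge -/
def Ch.wd (b : E) : ℕ → List (E × Bool)
  | 0 => ps (b :: C.ch (L.lab b))
  | n + 1 => (Ch.wd b n).flatMap C.sg

/-- there is no exit before the depth `n` -/
def Ch.Pre (b : E) (n : ℕ) : Prop :=
  ∀ i < n, ∀ p ∈ C.wd b i, C.ka (L.lab p.1) = L.ter b ∧ C.ka (L.ini p.1) = L.ter b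

/-- the words are equivalent -/
theorem Ch.seq_iff {H : Type} [Group H] (b : E) (y : ℤ → V → H)
    (hy : ∀ j, Nx L B (y j) (y (j + 1))) (n : ℕ) (hn : C.Pre b n) (j : ℤ) :
    ew L (y (j + n)) (C.wd b 0) = 1 ↔ ew L (y j) (C.wd b n) = 1 := by
  induction n generalizing j with
  | zero => rw [Nat.cast_zero, add_zero]
  | succ n ih =>
    have h1 := ih (fun i hi => hn i (by omega)) (j + 1)
    have h2 := C.ew_sg (hy j) (L.ter b) (C.wd b n) (hn n (by omega))
    have h3 : C.wd b (n + 1) = (C.wd b n).flatMap C.sg := rfl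
    rw [show j + ((n + 1 : ℕ) : ℤ) = j + 1 + n by push_cast; ring, h1, h2, h3]
    constructor
    · intro h
      rw [mul_assoc, inv_mul_eq_one] at h
      exact mul_eq_right.1 h.symm
    · intro h
      rw [h, mul_one, inv_mul_cancel]

theorem Ch.mem_ch {v : V} {e : E} (he : e ∈ C.ch v) :
    C.ka (L.lab e) = C.ka v ∧ ∀ e' ∈ C.ch (L.lab e), e' ∈ C.ch v := by
  revert he
  refine C.ind (P := fun v => e ∈ C.ch v →
    C.ka (L.lab e) = C.ka v ∧ ∀ e' ∈ C.ch (L.lab e), e' ∈ C.ch v) ?_ ?_ v
  · intro v _ h2 h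
    rw [h2] at h
    exact absurd h List.not_mem_nil
  · intro f hf ih h
    rw [(C.step f hf).2] at h
    rw [(C.step f hf).1, (C.step f hf).2]
    rcases List.mem_cons.1 h with h | h
    · subst h
      exact ⟨rfl, fun e' he' => List.mem_cons_of_mem _ he'⟩
    · obtain ⟨h1, h2⟩ := ih h
      exact ⟨h1, fun e' he' => List.mem_cons_of_mem _ (h2 e' he')⟩

/-- the edges up to a depth -/
def Ch.dp (b : E) : ℕ → Set E
  | 0 => ∅
  | 1 => {e | e ∈ b :: C.ch (L.lab b)}
  | n + 2 => Ch.dp b (n + 1) ∪ {e | ∃ e' ∈ Ch.dp b (n + 1), e ∈ C.ch (L.ini e')}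

theorem Ch.dp_succ (b : E) (n : ℕ) : C.dp b n ⊆ C.dp b (n + 1) := by
  cases n with
  | zero => exact Set.empty_subset _
  | succ n => exact Set.subset_union_left

theorem Ch.dp_mono (b : E) {m n : ℕ} (h : m ≤ n) : C.dp b m ⊆ C.dp b n := by
  induction n with
  | zero => rw [Nat.le_zero.1 h]
  | succ n ih =>
    rcases Nat.lt_or_ge n m with h1 | h1
    · rw [show m = n + 1 by omega]
    · exact (ih h1).trans (C.dp_succ b n)

theorem Ch.dp_tail (b : E) (n : ℕ) {e e' : E} (he : e ∈ C.dp b n) (he' : e' ∈ C.ch (L.lab e)) :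
    e' ∈ C.dp b n := by
  induction n with
  | zero => exact absurd he (Set.notMem_empty _)
  | succ n ih =>
    cases n with
    | zero =>
      have h1 : e ∈ b :: C.ch (L.lab b) := he
      show e' ∈ b :: C.ch (L.lab b)
      rcases List.mem_cons.1 h1 with h2 | h2
      · subst h2
        exact List.mem_cons_of_mem _ he'
      · exact List.mem_cons_of_mem _ ((C.mem_ch h2).2 e' he')
    | succ n =>
      rcases he with h1 | ⟨f, hf, h1⟩
      · exact Or.inl (ih h1)
      · exact Or.inr ⟨f, hf, (C.mem_ch h1).2 e' he'⟩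

/-- the next depth contains the chains -/
theorem Ch.dp_ini (b : E) (n : ℕ) {e e' : E} (he : e ∈ C.dp b n) (he' : e' ∈ C.ch (L.ini e)) :
    e' ∈ C.dp b (n + 1) := by
  cases n with
  | zero => exact absurd he (Set.notMem_empty _)
  | succ n => exact Or.inr ⟨e, he, he'⟩

theorem Ch.mem_wd (b : E) (n : ℕ) : (∀ e, (e, true) ∈ C.wd b n → e ∈ C.dp b (n + 1)) ∧
    (∀ e, (e, false) ∈ C.wd b n → e ∈ C.dp b n) ∧
      ∀ e, e ∈ C.dp b (n + 1) → e ∉ C.dp b n → (e, true) ∈ C.wd b n := by
  induction n with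
  | zero =>
    refine ⟨fun e he => (mem_ps.1 he).1, fun e he => ?_, fun e he _ => mem_ps.2 ⟨he, rfl⟩⟩
    exact absurd (mem_ps.1 he).2 (by simp)
  | succ n ih =>
    obtain ⟨i1, i2, i3⟩ := ih
    have key : ∀ p, p ∈ C.wd b (n + 1) → ∃ q ∈ C.wd b n, p ∈ C.sg q := fun p hp =>
      List.mem_flatMap.1 hp
    refine ⟨fun e he => ?_, fun e he => ?_, fun e he he' => ?_⟩
    · obtain ⟨⟨f, σ⟩, hq, h1⟩ := key _ he
      cases σ with
      | true =>
        have h2 : (e, true) ∈ ng (C.ch (L.lab f)) ++ ps (C.ch (L.ini f)) := h1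
        rcases List.mem_append.1 h2 with h3 | h3
        · exact absurd (mem_ng.1 h3).2 (by simp)
        · exact C.dp_ini b (n + 1) (i1 f hq) (mem_ps.1 h3).1
      | false =>
        have h2 : (e, true) ∈ ng (C.ch (L.ini f)) ++ ps (C.ch (L.lab f)) := h1
        rcases List.mem_append.1 h2 with h3 | h3
        · exact absurd (mem_ng.1 h3).2 (by simp)
        · exact C.dp_mono b (by omega) (C.dp_tail b n (i2 f hq) (mem_ps.1 h3).1)
    · obtain ⟨⟨f, σ⟩, hq, h1⟩ := key _ he
      cases σ with
      | true =>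
        have h2 : (e, false) ∈ ng (C.ch (L.lab f)) ++ ps (C.ch (L.ini f)) := h1
        rcases List.mem_append.1 h2 with h3 | h3
        · exact C.dp_tail b (n + 1) (i1 f hq) (mem_ng.1 h3).1
        · exact absurd (mem_ps.1 h3).2 (by simp)
      | false =>
        have h2 : (e, false) ∈ ng (C.ch (L.ini f)) ++ ps (C.ch (L.lab f)) := h1
        rcases List.mem_append.1 h2 with h3 | h3
        · exact C.dp_ini b n (i2 f hq) (mem_ng.1 h3).1
        · exact absurd (mem_ps.1 h3).2 (by simp)
    · rcases he with h1 | ⟨f, hf, h1⟩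
      · exact absurd h1 he'
      · have hf' : f ∉ C.dp b n := fun h => he' (C.dp_ini b n h h1)
        refine List.mem_flatMap.2 ⟨(f, true), i3 f hf hf', ?_⟩
        show (e, true) ∈ ng (C.ch (L.lab f)) ++ ps (C.ch (L.ini f))
        exact List.mem_append_right _ (mem_ps.2 ⟨h1, rfl⟩)

theorem Ch.ka_dp (b : E) (hb : b ∈ B) (n : ℕ)
    (hn : ∀ e ∈ C.dp b n, C.ka (L.ini e) = L.ter b) :
    ∀ e ∈ C.dp b (n + 1), C.ka (L.lab e) = L.ter b := by
  induction n with
  | zero =>
    intro e he
    have h1 : e ∈ b :: C.ch (L.lab b) := he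
    rcases List.mem_cons.1 h1 with h2 | h2
    · rw [h2]; exact C.cyc b hb
    · rw [(C.mem_ch h2).1]; exact C.cyc b hb
  | succ n ih =>
    intro e he
    rcases he with h1 | ⟨f, hf, h1⟩
    · exact ih (fun e he => hn e (C.dp_succ b n he)) e h1
    · rw [(C.mem_ch h1).1]
      exact hn f hf

/-- **The first exit.** -/
theorem Ch.exists_depth (hac : WellFounded fun u v => ∃ e, L.ini e = u ∧ L.ter e = v) (b : E)
    (hb : b ∈ B) : ∃ n : ℕ, C.Pre b n ∧ (∀ e ∈ C.dp b n, C.ka (L.ini e) = L.ter b) ∧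
      (∀ p ∈ C.wd b n, C.ka (L.lab p.1) = L.ter b) ∧
      (∀ e, (e, false) ∈ C.wd b n → C.ka (L.ini e) = L.ter b) ∧
      ∃ e, (e, true) ∈ C.wd b n ∧ C.ka (L.ini e) ≠ L.ter b := by
  classical
  have hex : ∃ n, ∃ e ∈ C.dp b (n + 1), C.ka (L.ini e) ≠ L.ter b := by
    by_contra hno
    push Not at hno
    -- the set of the terminal vertices
    let T : Set V := {v | ∃ n, ∃ e ∈ C.dp b n, L.ter e = v}
    obtain ⟨v, ⟨n, e, he, hv⟩, hmin⟩ := hac.has_min T ⟨L.ter b, 1, b, List.mem_cons_self, rfl⟩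
    refine hmin (L.ini e) ?_ ⟨e, rfl, hv⟩
    have h1 := hno n e (C.dp_succ b n he)
    by_cases hr : ∀ f, L.ter f ≠ L.ini e
    · rw [(C.root _ hr).1] at h1
      exact absurd h1.symm (hr b)
    · push Not at hr
      obtain ⟨f, hf⟩ := hr
      by_cases hfB : f ∈ B
      · rw [← hf, (C.base f hfB).1, hf] at h1
        exact ⟨1, b, List.mem_cons_self, h1.symm⟩
      · refine ⟨n + 1, f, C.dp_ini b n he ?_, hf⟩
        rw [← hf, (C.step f hfB).2]
        exact List.mem_cons_self
  let n := Nat.find hex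
  obtain ⟨e, he, hne⟩ := Nat.find_spec hex
  have hmin : ∀ m < n, ∀ e ∈ C.dp b (m + 1), C.ka (L.ini e) = L.ter b := by
    intro m hm e he
    by_contra h
    exact Nat.find_min hex hm ⟨e, he, h⟩
  have hdp : ∀ e ∈ C.dp b n, C.ka (L.ini e) = L.ter b := by
    intro e he
    rcases Nat.eq_zero_or_pos n with h | h
    · rw [h] at he
      exact absurd he (Set.notMem_empty _)
    · exact hmin (n - 1) (by omega) e (by rw [show n - 1 + 1 = n by omega]; exact he)
  have hdp' : ∀ m ≤ n, ∀ e ∈ C.dp b m, C.ka (L.ini e) = L.ter b := fun m hm e he =>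
    hdp e (C.dp_mono b hm he)
  have hwd : ∀ m, ∀ p ∈ C.wd b m, p.1 ∈ C.dp b (m + 1) := by
    rintro m ⟨f, σ⟩ hp
    cases σ with
    | true => exact (C.mem_wd b m).1 f hp
    | false => exact C.dp_succ b m ((C.mem_wd b m).2.1 f hp)
  refine ⟨n, ?_, hdp, ?_, ?_, e, ?_, hne⟩
  · intro i hi p hp
    have h1 := hwd i p hp
    exact ⟨C.ka_dp b hb i (hdp' i hi.le) _ h1, hdp' (i + 1) hi _ h1⟩
  · intro p hp
    exact C.ka_dp b hb n hdp _ (hwd n p hp)
  · intro f hf
    exact hdp f ((C.mem_wd b n).2.1 f hf)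
  · exact (C.mem_wd b n).2.2 e he fun h => hne (hdp e h)

end Pool.Agent.V5helper80.Rt
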