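import Pool.Agent.V5helper80.Rt.Lot
import Pool.Agent.V5helper80.One.Comb

/-!
# Circuits in the graph of the labels and the terminal vertices
-/

set_option autoImplicit false

namespace Pool.Agent.V5helper80.Rt

open Pool.Agent.V5helper80.Rel Pool.Agent.V5helper80.One
open Pool.Agent.TH625.LOG Pool.Agent.N819.LT

variable {V E : Type} (L : LOG V E)

/-- the vertices which belong to the same component of the graph with the edges `{ter e, lab e}` -/
def Lnk : V → V → Prop := Relation.EqvGen fun u v => ∃ e, L.ter e = u ∧ L.lab e = v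

/-- the initial point of a step: the step `(e, true)` goes from `ter e` to `lab e`, the step
`(e, false)` from `lab e` to `ter e` -/
def st (p : E × Bool) : V := if p.2 = true then L.ter p.1 else L.lab p.1

/-- the terminal point of a step -/
def en (p : E × Bool) : V := if p.2 = true then L.lab p.1 else L.ter p.1

/-- walks in the graph with the edges `{ter e, lab e}` -/
def Walk : V → List (E × Bool) → V → Prop
  | v, [], w => v = w
  | v, p :: l, w => st L p = v ∧ Walk (en L p) l w

/-- a signed edge as an element of the free group -/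
def sg (p : E × Bool) : FreeGroup E := if p.2 = true then FreeGroup.of p.1 else (FreeGroup.of p.1)⁻¹

/-- the word of a walk -/
def wl (l : List (E × Bool)) : FreeGroup E := (l.map sg).prod

open Classical in
/-- the crossing word of a walk: the product of the elements `[x_{lab e}]^{±1}` of the free group with
the basis `G` over the steps `(e, ±)` for which exactly one of the vertices `ini e`, `lab e` belongs
to `P` -/
noncomputable def cw (P : V → Prop) (l : List (E × Bool)) : FreeGroup L.G :=
  (l.map fun p => if P (L.ini p.1) ↔ P (L.lab p.1) then (1 : FreeGroup L.G)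
    else if p.2 = true then FreeGroup.of (L.gen (L.lab p.1))
    else (FreeGroup.of (L.gen (L.lab p.1)))⁻¹).prod

variable {L}

theorem wl_cons (p : E × Bool) (l : List (E × Bool)) : wl (p :: l) = sg p * wl l := by
  unfold wl
  rw [List.map_cons, List.prod_cons]

theorem wl_nil : wl ([] : List (E × Bool)) = 1 := rfl

theorem mem_wd_wl {P : E → Prop} (l : List (E × Bool)) (h : ∀ p ∈ l, P p.1) : wl l ∈ wd P := by
  induction l with
  | nil => exact Subgroup.one_mem _
  | cons p l ih =>
    rw [wl_cons]
    refine Subgroup.mul_mem _ ?_ (ih fun q hq => h q (List.mem_cons_of_mem _ hq))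
    have h1 : FreeGroup.of p.1 ∈ wd P :=
      Subgroup.subset_closure ⟨p.1, h p List.mem_cons_self, rfl⟩
    unfold sg
    split_ifs
    · exact h1
    · exact Subgroup.inv_mem _ h1

section val
variable {H : Type} [Group H] {B : Set E}

/-- the values along a walk -/
theorem Walk.val {y y' : V → H} (hN : Nx L B y y') : ∀ (l : List (E × Bool)) {v w : V},
    Walk L v l w → (∀ p ∈ l, p.1 ∉ B) → y' v = ev L y (wl l) * y' w
  | [], v, w, h, _ => by
    have : v = w := h
    rw [this, wl_nil, map_one, one_mul]
  | p :: l, v, w, h, hl => by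
    obtain ⟨h1, h2⟩ := h
    have ih := Walk.val hN l h2 fun q hq => hl q (List.mem_cons_of_mem _ hq)
    have h3 := hN p.1 (hl p List.mem_cons_self)
    rw [wl_cons, map_mul, mul_assoc, ← ih, ← h1]
    unfold sg st en
    split_ifs
    · rw [ev_of]
      exact h3
    · rw [map_inv, ev_of, h3, inv_mul_cancel_left]

/-- the relation of an edge is equivalent to the word of a circuit through it -/
theorem eqv_circ {b : E} (l : List (E × Bool)) (h : Walk L (L.lab b) l (L.ter b))
    (hl : ∀ p ∈ l, p.1 ∉ B) : Eqv L B b (tw L (wl ((b, true) :: l))) := by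
  have key : ∀ (H : Type) [Group H] (y y' : V → H), Nx L B y y' →
      (y' (L.ter b) = pr L y b * y' (L.lab b) ↔ ev L y (wl ((b, true) :: l)) = 1) := by
    intro H _ y y' hN
    have h1 := Walk.val hN l h hl
    have h2 : sg (b, true) = FreeGroup.of b := if_pos rfl
    rw [wl_cons, h2, map_mul, ev_of, h1, ← mul_assoc]
    constructor
    · intro h
      exact mul_eq_right.1 h.symm
    · intro h
      rw [h, one_mul]
  intro H _ Y hY
  simp only [ev2_tw]
  exact ⟨fun h1 m => (key H _ _ (hY m)).1 (h1 m), fun h1 m => (key H _ _ (hY m)).2 (h1 m)⟩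

end val

/-- the setoid of the components -/
def lnkS (L : LOG V E) : Setoid V := ⟨Lnk L, Relation.EqvGen.is_equivalence _⟩

/-- the representatives -/
noncomputable def rp (L : LOG V E) (v : V) : V := (Quotient.mk (lnkS L) v).out

theorem rp_lnk (v : V) : Lnk L (rp L v) v := by
  have h : (lnkS L).r (Quotient.mk (lnkS L) v).out v := Quotient.mk_out (s := lnkS L) v
  exact h

theorem rp_eq {u v : V} : rp L u = rp L v ↔ Lnk L u v := by
  constructor
  · intro h
    exact Relation.EqvGen.trans _ _ _ (Relation.EqvGen.symm _ _ (rp_lnk u)) (h ▸ rp_lnk v)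
  · intro h
    unfold rp
    congr 1
    exact Quotient.sound (s := lnkS L) h

theorem rp_rp (v : V) : rp L (rp L v) = rp L v := rp_eq.2 (rp_lnk v)

theorem lnk_edge (e : E) : Lnk L (L.ter e) (L.lab e) := Relation.EqvGen.rel _ _ ⟨e, rfl, rfl⟩

open Classical in
/-- **Chains exist in forests.** -/
theorem exists_cn [Fintype V] [Fintype E] (B : Set E)
    (hF : Forest (fun e : {e // e ∉ B} => L.ter e.1) fun e => L.lab e.1)
    (hB : ∀ b ∈ B, ∃ l, Walk L (L.lab b) l (L.ter b) ∧ ∀ p ∈ l, p.1 ∉ B) :
    ∃ C : Cn L B, C.ka = rp L := by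
  obtain ⟨u, hu⟩ := pot_aux _ _ hF (fun e : {e // e ∉ B} => FreeGroup.of e.1) _
    Finset.univ Finset.univ rfl (fun e _ => ⟨Finset.mem_univ _, Finset.mem_univ _⟩)
  refine ⟨{ ka := rp L
            ch := fun v => u v * (u (rp L v))⁻¹
            step := ?_
            cyc := fun e _ => rp_eq.2 (lnk_edge e)
            val := ?_ }, rfl⟩
  · intro e he
    have h1 : rp L (L.ter e) = rp L (L.lab e) := rp_eq.2 (lnk_edge e)
    refine ⟨h1, ?_⟩
    rw [h1, hu ⟨e, he⟩ (Finset.mem_univ _), mul_assoc]
  · intro H _ y y' hN v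
    let f : V → H := fun v => (ev L y (u v))⁻¹ * y' v
    have hf : ∀ e, e ∉ B → f (L.ter e) = f (L.lab e) := by
      intro e he
      simp only [f]
      rw [hu ⟨e, he⟩ (Finset.mem_univ _), map_mul, ev_of, hN e he]
      group
    have hw : ∀ (l : List (E × Bool)) (v w : V), Walk L v l w → (∀ p ∈ l, p.1 ∉ B) →
        f v = f w := by
      intro l
      induction l with
      | nil =>
        intro v w h _
        exact congrArg f h
      | cons p l ih =>
        rintro v w ⟨h1, h2⟩ hl
        rw [← ih _ _ h2 fun q hq => hl q (List.mem_cons_of_mem _ hq), ← h1]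
        have h3 := hf p.1 (hl p List.mem_cons_self)
        unfold st en
        split_ifs
        · exact h3
        · exact h3.symm
    have hf2 : ∀ e, f (L.ter e) = f (L.lab e) := by
      intro e
      by_cases he : e ∈ B
      · obtain ⟨l, hl1, hl2⟩ := hB e he
        exact (hw l _ _ hl1 hl2).symm
      · exact hf e he
    have hf3 : ∀ v w, Lnk L v w → f v = f w := by
      intro v w h
      induction h with
      | rel _ _ h =>
        obtain ⟨e, rfl, rfl⟩ := h
        exact hf2 e
      | refl _ => rfl
      | symm _ _ _ ih => exact ih.symm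
      | trans _ _ _ _ _ ih1 ih2 => exact ih1.trans ih2
    have h1 := hf3 _ _ (rp_lnk (L := L) v)
    simp only [f] at h1
    rw [map_mul, map_inv, mul_assoc, h1, mul_inv_cancel_left]

section cross

/-- right translations on the free group with the basis `Γ` -/
def tra (Γ : Type) [Group Γ] : Γ →* MulAut (FreeGroup Γ) where
  toFun g := FreeGroup.freeGroupCongr (Equiv.mulRight g⁻¹)
  map_one' := by
    ext x
    refine congrArg (fun F : FreeGroup Γ →* FreeGroup Γ => F x)
      (FreeGroup.ext_hom (FreeGroup.freeGroupCongr (Equiv.mulRight (1 : Γ)⁻¹)).toMonoidHom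
        (MonoidHom.id _) fun a => ?_)
    show FreeGroup.map (Equiv.mulRight (1 : Γ)⁻¹) (FreeGroup.of a) = FreeGroup.of a
    rw [FreeGroup.map.of]
    simp
  map_mul' g h := by
    ext x
    refine congrArg (fun F : FreeGroup Γ →* FreeGroup Γ => F x)
      (FreeGroup.ext_hom (FreeGroup.freeGroupCongr (Equiv.mulRight (g * h)⁻¹)).toMonoidHom
        ((FreeGroup.freeGroupCongr (Equiv.mulRight g⁻¹)).toMonoidHom.comp
          (FreeGroup.freeGroupCongr (Equiv.mulRight h⁻¹)).toMonoidHom) fun a => ?_)
    simp [FreeGroup.freeGroupCongr, mul_assoc]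

theorem tra_of {Γ : Type} [Group Γ] (g h : Γ) :
    tra Γ g (FreeGroup.of h) = FreeGroup.of (h * g⁻¹) := by
  show FreeGroup.freeGroupCongr (Equiv.mulRight g⁻¹) (FreeGroup.of h) = _
  simp [FreeGroup.freeGroupCongr]

/-- the homomorphism to the semidirect product -/
noncomputable def sdp {Γ : Type} [Group Γ] (ε : ℤ) : Ex Γ →* FreeGroup Γ ⋊[tra Γ] Γ :=
  liftE SemidirectProduct.inr ((SemidirectProduct.inl (FreeGroup.of 1)) ^ ε)

theorem sdp_inA {Γ : Type} [Group Γ] (ε : ℤ) (g : Γ) :
    sdp ε (inA g) = SemidirectProduct.inr g := liftE_inA _ _ _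

theorem sdp_zz {Γ : Type} [Group Γ] (ε : ℤ) :
    sdp (Γ := Γ) ε zz = (SemidirectProduct.inl (FreeGroup.of 1)) ^ ε := liftE_zz _ _

theorem sdp_conj {Γ : Type} [Group Γ] (ε : ℤ) (hε : ε * ε = 1) (g : Γ) :
    sdp ε ((inA g)⁻¹ * zz ^ ε * inA g) = SemidirectProduct.inl (FreeGroup.of g) := by
  rw [map_mul, map_mul, map_inv, map_zpow, sdp_inA, sdp_zz, ← zpow_mul, hε, zpow_one]
  have h1 := SemidirectProduct.inl_aut (φ := tra Γ) g⁻¹ (FreeGroup.of 1)
  rw [tra_of, one_mul, inv_inv] at h1
  rw [h1, map_inv]

variable (L) in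
/-- the generators, multiplied with a new letter in `P` -/
noncomputable def xP (P : V → Prop) [DecidablePred P] (v : V) : Ex L.G :=
  if P v then inA (L.gen v) * zz else inA (L.gen v)

open Classical in
/-- the elements which telescope -/
theorem cross_step (P : V → Prop) (s : Prop) (e : E) (hs : P (L.lab e) ↔ s) :
    ev L (xP L P) (FreeGroup.of e) =
      ((if s then zz⁻¹ else 1) * inA (L.gen (L.ter e))) *
        (if P (L.ini e) ↔ P (L.lab e) then 1 else
          (inA (L.gen (L.lab e)))⁻¹ * zz ^ (if s then (-1 : ℤ) else 1) * inA (L.gen (L.lab e))) *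
        ((if s then zz⁻¹ else 1) * inA (L.gen (L.lab e)))⁻¹ := by
  have h1 : inA (L.gen (L.ini e)) = inA (L.gen (L.lab e)) * inA (L.gen (L.ter e)) *
      (inA (L.gen (L.lab e)))⁻¹ := by
    rw [← map_inv, ← map_mul, ← map_mul, ← gen_rel, mul_inv_cancel_right]
  rw [ev_of]
  unfold pr xP
  by_cases hl : P (L.lab e)
  · have hs' : s := hs.1 hl
    rw [if_pos hl, if_pos hs', if_pos hs']
    by_cases hi : P (L.ini e)
    · rw [if_pos hi, if_pos ⟨fun _ => hl, fun _ => hi⟩, h1]
      group
    · rw [if_neg hi, if_neg fun h => hi (h.2 hl), h1]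
      group
  · have hs' : ¬ s := fun h => hl (hs.2 h)
    rw [if_neg hl, if_neg hs', if_neg hs']
    by_cases hi : P (L.ini e)
    · rw [if_pos hi, if_neg fun h => hl (h.1 hi), h1]
      group
    · rw [if_neg hi, if_pos ⟨fun h => absurd h hi, fun h => absurd h hl⟩, h1]
      group

open Classical in
/-- the value of a walk in the semidirect product -/
theorem cross (P : V → Prop) (s : Prop) : ∀ (l : List (E × Bool)) (v w : V), Walk L v l w →
    (∀ p ∈ l, P (L.lab p.1) ↔ s) →
    sdp (if s then (-1 : ℤ) else 1) (((if s then zz⁻¹ else 1) * inA (L.gen v))⁻¹ *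
      ev L (xP L P) (wl l) * ((if s then zz⁻¹ else 1) * inA (L.gen w))) =
      SemidirectProduct.inl (cw L P l)
  | [], v, w, h, _ => by
    have hvw : v = w := h
    subst hvw
    rw [wl_nil, map_one, mul_one, inv_mul_cancel, map_one]
    exact (map_one _).symm
  | p :: l, v, w, h, hs => by
    obtain ⟨h1, h2⟩ := h
    have ih := cross P s l _ w h2 fun q hq => hs q (List.mem_cons_of_mem _ hq)
    set ε : ℤ := if s then (-1 : ℤ) else 1 with hεdef
    set X : V → Ex L.G := fun v => (if s then zz⁻¹ else 1) * inA (L.gen v) with hX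
    have hε : ε * ε = 1 := by
      rw [hεdef]
      split_ifs <;> norm_num
    have hstep := cross_step (L := L) P s p.1 (hs p List.mem_cons_self)
    rw [← hεdef] at hstep
    set K : Ex L.G := if P (L.ini p.1) ↔ P (L.lab p.1) then 1 else
      (inA (L.gen (L.lab p.1)))⁻¹ * zz ^ ε * inA (L.gen (L.lab p.1)) with hK
    have hstep' : ev L (xP L P) (FreeGroup.of p.1) = X (L.ter p.1) * K * (X (L.lab p.1))⁻¹ := hstep
    have hKs : sdp ε K = SemidirectProduct.inl (if P (L.ini p.1) ↔ P (L.lab p.1) then 1 else
        FreeGroup.of (L.gen (L.lab p.1))) := by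
      rw [hK]
      split_ifs
      · rw [map_one, map_one]
      · exact sdp_conj ε hε _
    have ih' : sdp ε ((X (en L p))⁻¹ * ev L (xP L P) (wl l) * X w) =
      SemidirectProduct.inl (cw L P l) := ih
    show sdp ε ((X v)⁻¹ * ev L (xP L P) (wl (p :: l)) * X w) = _
    rw [wl_cons, map_mul (ev L (xP L P))]
    have hcw : cw L P (p :: l) = (if P (L.ini p.1) ↔ P (L.lab p.1) then (1 : FreeGroup L.G)
      else if p.2 = true then FreeGroup.of (L.gen (L.lab p.1))
      else (FreeGroup.of (L.gen (L.lab p.1)))⁻¹) * cw L P l := by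
      unfold cw
      rw [List.map_cons, List.prod_cons]
    rw [hcw, map_mul (SemidirectProduct.inl (φ := tra L.G)), ← ih', ← h1]
    by_cases hσ : p.2 = true
    · have e1 : sg p = FreeGroup.of p.1 := if_pos hσ
      have e2 : st L p = L.ter p.1 := if_pos hσ
      have e3 : en L p = L.lab p.1 := if_pos hσ
      rw [e1, e2, e3, hstep', if_pos hσ, ← hKs, ← map_mul]
      congr 1
      group
    · have e1 : sg p = (FreeGroup.of p.1)⁻¹ := if_neg hσ
      have e2 : st L p = L.lab p.1 := if_neg hσ
      have e3 : en L p = L.ter p.1 := if_neg hσ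
      have hKs' : SemidirectProduct.inl (φ := tra L.G)
          (if P (L.ini p.1) ↔ P (L.lab p.1) then (1 : FreeGroup L.G)
            else (FreeGroup.of (L.gen (L.lab p.1)))⁻¹) = sdp ε K⁻¹ := by
        rw [map_inv, hKs, ← map_inv]
        congr 1
        split_ifs
        · rw [inv_one]
        · rfl
      rw [e1, e2, e3, map_inv (ev L (xP L P)), hstep', if_neg hσ, hKs', ← map_mul]
      congr 1
      group

open Classical in
/-- the value of a closed walk is not trivial if its crossing word is not -/
theorem cross_ne (P : V → Prop) (s : Prop) (l : List (E × Bool)) (v : V) (hw : Walk L v l v)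
    (hs : ∀ p ∈ l, P (L.lab p.1) ↔ s) (hne : cw L P l ≠ 1) : ev L (xP L P) (wl l) ≠ 1 := by
  intro h
  apply hne
  have h1 := cross P s l v v hw hs
  rw [h, mul_one, inv_mul_cancel, map_one] at h1
  exact SemidirectProduct.inl_injective (h1.symm.trans (map_one _).symm)

end cross

end Pool.Agent.V5helper80.Rt
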