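import Pool.Agent.V5helper80.Rt.Cha

/-!
# Chains in the graph of the labels and the terminal vertices, as elements of free groups
-/

set_option autoImplicit false

namespace Pool.Agent.V5helper80.Rt

open Pool.Agent.TH625.LOG

variable {V E : Type} (L : LOG V E)

/-- the value of a word in the edges -/
def ev {H : Type} [Group H] (x : V → H) : FreeGroup E →* H := FreeGroup.lift (pr L x)

/-- paths to the base vertices in the graph with the edges `{lab e, ter e}` -/
structure Cn (B : Set E) where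
  ka : V → V
  ch : V → FreeGroup E
  step : ∀ e, e ∉ B → ka (L.ter e) = ka (L.lab e) ∧ ch (L.ter e) = FreeGroup.of e * ch (L.lab e)
  cyc : ∀ e ∈ B, ka (L.ter e) = ka (L.lab e)
  val : ∀ (H : Type) [Group H] (y y' : V → H), Nx L B y y' →
    ∀ v, y' v = ev L y (ch v) * y' (ka v)

variable {L}

section ev
variable {H : Type} [Group H]

theorem ev_of (x : V → H) (e : E) : ev L x (FreeGroup.of e) = pr L x e :=
  FreeGroup.lift_apply_of

theorem map_ev {H' : Type} [Group H'] (F : H →* H') (x : V → H) (w : FreeGroup E) :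
    F (ev L x w) = ev L (fun v => F (x v)) w := by
  have h1 : F.comp (ev L x) = ev L (fun v => F (x v)) := by
    refine FreeGroup.ext_hom _ _ fun e => ?_
    show F (ev L x (FreeGroup.of e)) = _
    rw [ev_of, ev_of, map_pr]
  exact DFunLike.congr_fun h1 w

theorem ev_one (x : V → H) (g : H) (h : ∀ v, x v = g) (w : FreeGroup E) : ev L x w = 1 := by
  have h1 : ev L x = 1 := by
    refine FreeGroup.ext_hom _ _ fun e => ?_
    rw [ev_of]
    unfold pr
    rw [h, h, inv_mul_cancel]
    rfl
  rw [h1, MonoidHom.one_apply]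

/-- the words in the edges with the property `P` -/
def wd (P : E → Prop) : Subgroup (FreeGroup E) := Subgroup.closure {x | ∃ e, P e ∧ x = FreeGroup.of e}

theorem ev_congr {x x' : V → H} {P : E → Prop} (h : ∀ e, P e → pr L x e = pr L x' e)
    {w : FreeGroup E} (hw : w ∈ wd P) : ev L x w = ev L x' w := by
  refine Subgroup.closure_induction (p := fun w _ => ev L x w = ev L x' w) ?_ ?_ ?_ ?_ hw
  · rintro _ ⟨e, he, rfl⟩
    rw [ev_of, ev_of, h e he]
  · rw [map_one, map_one]
  · intro a b _ _ ha hb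
    rw [map_mul, map_mul, ha, hb]
  · intro a _ ha
    rw [map_inv, map_inv, ha]

end ev

section ev2
variable {H : Type} [Group H]

/-- the element `x_u⁻¹ x_v` -/
def pr2 (x : V → H) (a : V × V) : H := (x a.1)⁻¹ * x a.2

/-- the value of a word in the pairs of vertices: `(u, v)` goes to `x_u⁻¹ x_v` -/
def ev2 (x : V → H) : FreeGroup (V × V) →* H := FreeGroup.lift (pr2 x)

theorem ev2_of (x : V → H) (a : V × V) : ev2 x (FreeGroup.of a) = pr2 x a :=
  FreeGroup.lift_apply_of

theorem map_ev2 {H' : Type} [Group H'] (F : H →* H') (x : V → H) (w : FreeGroup (V × V)) :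
    F (ev2 x w) = ev2 (fun v => F (x v)) w := by
  have h1 : F.comp (ev2 x) = ev2 (fun v => F (x v)) := by
    refine FreeGroup.ext_hom _ _ fun a => ?_
    show F (ev2 x (FreeGroup.of a)) = _
    rw [ev2_of, ev2_of]
    unfold pr2
    rw [map_mul, map_inv]
  exact DFunLike.congr_fun h1 w

theorem ev2_one (x : V → H) (g : H) (h : ∀ v, x v = g) (w : FreeGroup (V × V)) :
    ev2 x w = 1 := by
  have h1 : ev2 x = 1 := by
    refine FreeGroup.ext_hom _ _ fun a => ?_
    rw [ev2_of]
    unfold pr2
    rw [h, h, inv_mul_cancel]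
    rfl
  rw [h1, MonoidHom.one_apply]

theorem ev2_congr {x x' : V → H} {P : V × V → Prop} (h : ∀ a, P a → pr2 x a = pr2 x' a)
    {w : FreeGroup (V × V)} (hw : w ∈ wd P) : ev2 x w = ev2 x' w := by
  refine Subgroup.closure_induction (p := fun w _ => ev2 x w = ev2 x' w) ?_ ?_ ?_ ?_ hw
  · rintro _ ⟨e, he, rfl⟩
    rw [ev2_of, ev2_of, h e he]
  · rw [map_one, map_one]
  · intro a b _ _ ha hb
    rw [map_mul, map_mul, ha, hb]
  · intro a _ ha
    rw [map_inv, map_inv, ha]

variable (L) in
/-- a word in the edges as a word in the pairs of vertices -/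
def tw : FreeGroup E →* FreeGroup (V × V) := FreeGroup.map fun e => (L.lab e, L.ini e)

theorem ev2_tw (x : V → H) (w : FreeGroup E) : ev2 x (tw L w) = ev L x w := by
  have h1 : (ev2 x).comp (tw L) = ev L x := by
    refine FreeGroup.ext_hom _ _ fun e => ?_
    show ev2 x (tw L (FreeGroup.of e)) = _
    unfold tw
    rw [FreeGroup.map.of, ev2_of, ev_of]
    rfl
  exact DFunLike.congr_fun h1 w

theorem tw_mem {P : E → Prop} {Q : V × V → Prop} (h : ∀ e, P e → Q (L.lab e, L.ini e))
    {w : FreeGroup E} (hw : w ∈ wd P) : tw L w ∈ wd Q := by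
  have h1 : wd P ≤ (wd Q).comap (tw L) := by
    unfold wd
    rw [Subgroup.closure_le]
    rintro _ ⟨e, he, rfl⟩
    refine Subgroup.subset_closure ⟨_, h e he, ?_⟩
    unfold tw
    rw [FreeGroup.map.of]
  exact h1 hw

end ev2

variable {B : Set E} (C : Cn L B)

/-- the substitution -/
def Cn.sb : FreeGroup E →* FreeGroup E :=
  FreeGroup.lift fun e => (C.ch (L.lab e))⁻¹ * C.ch (L.ini e)

/-- the word of a base edge -/
def Cn.w0 (b : E) : FreeGroup E := (C.ch (L.ter b))⁻¹ * FreeGroup.of b * C.ch (L.lab b)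

/-- the words of a base edge -/
def Cn.wn (b : E) : ℕ → FreeGroup E
  | 0 => C.w0 b
  | n + 1 => C.sb (Cn.wn b n)

/-- the words before the depth `n` are words in the edges whose label and initial vertex belong to the
component of `b` -/
def Cn.Pre (b : E) (n : ℕ) : Prop :=
  ∀ i < n, C.wn b i ∈ wd fun e => C.ka (L.lab e) = C.ka (L.ter b) ∧
    C.ka (L.ini e) = C.ka (L.ter b)

variable (L) in
/-- for all sequences which satisfy the relations of the edges outside `B`, the relation of the edge
`b` is equivalent to the relation `w` -/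
def Eqv (B : Set E) (b : E) (w : FreeGroup (V × V)) : Prop :=
  ∀ (H : Type) [Group H] (Y : ℤ → V → H), (∀ j, Nx L B (Y j) (Y (j + 1))) →
    ((∀ m, Y (m + 1) (L.ter b) = pr L (Y m) b * Y (m + 1) (L.lab b)) ↔
      ∀ m, ev2 (Y m) w = 1)

section ev
variable {H : Type} [Group H]

theorem Cn.nx_mk (y z : V → H) : Nx L B y fun v => ev L y (C.ch v) * z (C.ka v) := by
  intro e he
  simp only
  rw [(C.step e he).1, (C.step e he).2, map_mul, ev_of, mul_assoc]

theorem Cn.rel_iff {y y' : V → H} (hN : Nx L B y y') (b : E) (hb : b ∈ B) :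
    y' (L.ter b) = pr L y b * y' (L.lab b) ↔ ev L y (C.w0 b) = 1 := by
  unfold Cn.w0
  rw [C.val H y y' hN (L.lab b), C.val H y y' hN (L.ter b), C.cyc b hb, map_mul, map_mul,
    map_inv, ev_of, ← mul_assoc, mul_left_inj, mul_assoc, inv_mul_eq_one]

theorem Cn.ev_sb {y y' : V → H} (hN : Nx L B y y') (s : V) {w : FreeGroup E}
    (hw : w ∈ wd fun e => C.ka (L.lab e) = s ∧ C.ka (L.ini e) = s) :
    ev L y' w = (y' s)⁻¹ * ev L y (C.sb w) * y' s := by
  refine Subgroup.closure_induction (p := fun w _ => ev L y' w =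
    (y' s)⁻¹ * ev L y (C.sb w) * y' s) ?_ ?_ ?_ ?_ hw
  · rintro _ ⟨e, ⟨h1, h2⟩, rfl⟩
    unfold Cn.sb
    rw [FreeGroup.lift_apply_of, map_mul, map_inv, ev_of]
    unfold pr
    rw [C.val H y y' hN (L.lab e), C.val H y y' hN (L.ini e), h1, h2]
    group
  · rw [map_one, map_one, map_one]
    group
  · intro a b _ _ ha hb
    rw [map_mul, map_mul, map_mul, ha, hb]
    group
  · intro a _ ha
    rw [map_inv, map_inv, map_inv, ha]
    group

end ev

theorem Cn.seq_iff {H : Type} [Group H] (b : E) (y : ℤ → V → H)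
    (hy : ∀ j, Nx L B (y j) (y (j + 1))) (n : ℕ) (hn : C.Pre b n) (j : ℤ) :
    ev L (y (j + n)) (C.w0 b) = 1 ↔ ev L (y j) (C.wn b n) = 1 := by
  induction n generalizing j with
  | zero => rw [Nat.cast_zero, add_zero]; rfl
  | succ n ih =>
    have h1 := ih (fun i hi => hn i (by omega)) (j + 1)
    have h2 := C.ev_sb (hy j) (C.ka (L.ter b)) (hn n (by omega))
    have h3 : C.wn b (n + 1) = C.sb (C.wn b n) := rfl
    rw [show j + ((n + 1 : ℕ) : ℤ) = j + 1 + n by push_cast; ring, h1, h2, h3]
    constructor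
    · intro h
      rw [mul_assoc, inv_mul_eq_one] at h
      exact mul_eq_right.1 h.symm
    · intro h
      rw [h, mul_one, inv_mul_cancel]

/-- the words are equivalent to the relation -/
theorem Cn.eqv_wn (b : E) (hb : b ∈ B) (n : ℕ) (hn : C.Pre b n) :
    Eqv L B b (tw L (C.wn b n)) := by
  intro H _ Y hY
  simp only [ev2_tw]
  constructor
  · intro h m
    exact (C.seq_iff b Y hY n hn m).1 ((C.rel_iff (hY (m + n)) b hb).1 (h (m + n)))
  · intro h m
    refine (C.rel_iff (hY m) b hb).2 ?_
    have h1 := (C.seq_iff b Y hY n hn (m - n)).2 (h (m - n))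
    rw [sub_add_cancel] at h1
    exact h1

/-- the same for constant families -/
theorem Eqv.const {b : E} {w : FreeGroup (V × V)} (h : Eqv L B b w) {H : Type} [Group H]
    (x : V → H) (hx : Nx L B x x) : x (L.ter b) = pr L x b * x (L.lab b) ↔ ev2 x w = 1 := by
  have h := h H (fun _ => x) fun _ => hx
  exact ⟨fun h1 => h.1 (fun _ => h1) 0, fun h1 => h.2 (fun _ => h1) 0⟩

end Pool.Agent.V5helper80.Rt
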