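import Pool.Agent.V5helper80.Rt.Away

/-!
# The final form of the criteria
-/

set_option autoImplicit false

namespace Pool.Agent.V5helper80.Rt

open Pool.Agent.V5helper80.Rel Pool.Agent.V5helper80.One
open Pool.Agent.TH625.LOG Pool.Agent.N819.LT

variable {V E : Type}

/-- the sequence `Y` of families satisfies the relation of the edge `e`, at all levels -/
def Sat (L : LOG V E) {H : Type} [Group H] (Y : ℤ → V → H) (e : E) : Prop :=
  ∀ m, Y m (L.ini e) * Y (m + 1) (L.lab e) = Y m (L.lab e) * Y (m + 1) (L.ter e)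

/-- for all sequences of families of elements of a group which satisfy the relations of the edges
outside `B`, the relation of the edge `b` is equivalent to the relation `w = 1` -/
def Equ (L : LOG V E) (B : Set E) (b : E) (w : FreeGroup (V × V)) : Prop :=
  ∀ (H : Type) [Group H] (Y : ℤ → V → H), (∀ e, e ∉ B → Sat L Y e) →
    (Sat L Y b ↔ ∀ m, ev2 (Y m) w = 1)

/-- words which are equivalent to the relations of a set `B` of edges outside which the graph with the
edges `{ter e, lab e}` is a forest with the same components; they are ordered by `ρ`, the vertices of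
the component of `q b` do not occur in the earlier words, and the word of `b` has a nontrivial value
if the generators of this component are multiplied with a new letter -/
structure Words (L : LOG V E) (B : Set E) (w : E → FreeGroup (V × V)) (ρ : E → ℕ) (q : E → V) :
    Prop where
  forest : Forest (fun e : {e // e ∉ B} => L.ter e.1) fun e => L.lab e.1
  circ : ∀ b ∈ B, ∃ l, Walk L (L.lab b) l (L.ter b) ∧ ∀ p ∈ l, p.1 ∉ B
  inj : ∀ b ∈ B, ∀ b' ∈ B, ρ b = ρ b' → b = b'
  equ : ∀ b ∈ B, Equ L B b (w b)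
  tri : ∀ b ∈ B, ∀ b' ∈ B, ρ b' < ρ b → w b' ∈ Subgroup.closure
    {x | ∃ a : V × V, (¬ Lnk L (q b) a.1 ∧ ¬ Lnk L (q b) a.2) ∧ x = FreeGroup.of a}
  tst : ∀ b ∈ B, ∀ _ : DecidablePred (Lnk L (q b)), ev2 (xP L (Lnk L (q b))) (w b) ≠ 1

theorem sat_iff (L : LOG V E) {H : Type} [Group H] (Y : ℤ → V → H) (e : E) :
    Sat L Y e ↔ ∀ m, Y (m + 1) (L.ter e) = pr L (Y m) e * Y (m + 1) (L.lab e) := by
  unfold Sat pr
  refine forall_congr' fun m => ?_
  constructor
  · intro h
    rw [mul_assoc, h, inv_mul_cancel_left]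
  · intro h
    rw [h]
    group

theorem Equ.eqv {L : LOG V E} {B : Set E} {b : E} {w : FreeGroup (V × V)} (h : Equ L B b w) :
    Eqv L B b w := by
  intro H _ Y hY
  rw [← sat_iff]
  exact h H Y fun e he => (sat_iff L Y e).2 fun m => hY m e he

open Classical in
theorem Words.locInd [Fintype V] [Fintype E] [Nonempty V] {L : LOG V E} {B : Set E}
    {w : E → FreeGroup (V × V)} {ρ : E → ℕ} {q : E → V} (h : Words L B w ρ q) (hS : Sqs L B) :
    LocInd L.G := by
  obtain ⟨C, hC⟩ := exists_cn B h.forest h.circ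
  refine Cn.Wds.main (C := C) (w := w) (ρ := ρ) (pv := fun b => rp L (q b))
    ⟨h.inj, fun b hb => (h.equ b hb).eqv, ?_, ?_⟩ hS
  · intro b hb b' hb' hlt
    have h1 := h.tri b hb b' hb' hlt
    have h2 : (Subgroup.closure {x | ∃ a : V × V, (¬ Lnk L (q b) a.1 ∧ ¬ Lnk L (q b) a.2) ∧
        x = FreeGroup.of a}) ≤ wd fun a : V × V => C.ka a.1 ≠ rp L (q b) ∧
          C.ka a.2 ≠ rp L (q b) := by
      unfold wd
      refine Subgroup.closure_mono ?_
      rintro _ ⟨a, ⟨h3, h4⟩, rfl⟩
      rw [hC]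
      exact ⟨a, ⟨fun h5 => h3 (rp_eq.1 h5.symm), fun h5 => h4 (rp_eq.1 h5.symm)⟩, rfl⟩
    exact h2 h1
  · intro b hb
    have h1 : C.xh (rp L (q b)) = xP L (Lnk L (q b)) := by
      funext v
      unfold Cn.xh xP
      rw [hC]
      by_cases h2 : Lnk L (q b) v
      · rw [if_pos h2, if_pos (rp_eq.2 h2).symm]
      · rw [if_neg h2, if_neg fun h3 => h2 (rp_eq.1 h3.symm)]
    rw [h1]
    exact h.tst b hb _

/-- the parent relation is well-founded -/
theorem wf_parent [Fintype V] [Fintype E] (L : LOG V E) (hF : Forest L.ini L.ter) :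
    WellFounded fun u v => ∃ e, L.ini e = u ∧ L.ter e = v := by
  classical
  rw [WellFounded.wellFounded_iff_has_min]
  intro T hT
  by_contra hno
  push Not at hno
  choose! f hf using hno
  have hf' : ∀ v ∈ T, ∃ e, L.ini e = f v ∧ L.ter e = v ∧ f v ∈ T := by
    intro v hv
    obtain ⟨h1, e, h2, h3⟩ := hf v hv
    exact ⟨e, h2, h3, h1⟩
  have hE : Nonempty E := by
    obtain ⟨v, hv⟩ := hT
    exact ⟨(hf' v hv).choose⟩
  choose! g hg using hf'
  let U : Finset V := Finset.univ.filter fun v => v ∈ T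
  have hU : ∀ v, v ∈ U ↔ v ∈ T := fun v => by simp [U]
  let D : Finset E := U.image g
  have h1 := hF U D (by
    obtain ⟨v, hv⟩ := hT
    exact ⟨v, (hU v).2 hv⟩) (by
      intro e he
      obtain ⟨v, hv, rfl⟩ := Finset.mem_image.1 he
      obtain ⟨h2, h3, h4⟩ := hg v ((hU v).1 hv)
      rw [h2, h3]
      exact ⟨(hU _).2 h4, hv⟩)
  have h2 : D.card = U.card := by
    refine Finset.card_image_of_injOn ?_
    intro u hu v hv huv
    have e1 := (hg u ((hU u).1 hu)).2.1
    have e2 := (hg v ((hU v).1 hv)).2.1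
    rw [← e1, huv, e2]
  omega

section one
variable {L : LOG V E}

/-- at most one circuit of labels -/
def OneCirc (L : LOG V E) : Prop :=
  ∃ s : V, ∀ W : Set V, W.Nonempty → (∀ v ∈ W, ∃ e, L.ter e = v ∧ L.lab e ∈ W) → s ∈ W

open Classical in
theorem OneCirc.ords (h : OneCirc L) (hinj : Function.Injective L.ter) :
    ∃ (B : Set E) (ρ : E → ℕ) (q : E → V), Ords L B ρ q := by
  obtain ⟨s, hs⟩ := h
  by_cases hex : ∃ W : Set V, W.Nonempty ∧ ∀ v ∈ W, ∃ e, L.ter e = v ∧ L.lab e ∈ W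
  · obtain ⟨W, hW, hW2⟩ := hex
    obtain ⟨b, hb, hbl⟩ := hW2 s (hs W hW hW2)
    have hwf : WellFounded fun u v => ∃ e, e ∉ ({b} : Set E) ∧ L.lab e = u ∧ L.ter e = v := by
      rw [WellFounded.wellFounded_iff_has_min]
      intro T hT
      by_contra hno
      push Not at hno
      have h1 : s ∈ T := hs T hT fun v hv => by
        obtain ⟨u, hu, e, _, h2, h3⟩ := hno v hv
        exact ⟨e, h3, by rw [h2]; exact hu⟩
      obtain ⟨u, _, e, he, _, h3⟩ := hno s h1
      rw [← hb] at h3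
      exact he (hinj h3)
    refine ⟨{b}, fun _ => 0, fun e => L.ter e, hwf, ?_, ?_, ?_, ?_⟩
    · rintro b' rfl
      have h1 : ∀ v, v ∈ W → Relation.ReflTransGen
          (fun u v => ∃ e, e ∉ ({b'} : Set E) ∧ L.ter e = u ∧ L.lab e = v) v (L.ter b') := by
        intro v
        refine hwf.induction (C := fun v => v ∈ W → Relation.ReflTransGen
          (fun u v => ∃ e, e ∉ ({b'} : Set E) ∧ L.ter e = u ∧ L.lab e = v) v (L.ter b')) v ?_
        intro v ih hv
        obtain ⟨e, he, hel⟩ := hW2 v hv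
        by_cases heb : e = b'
        · rw [← he, heb]
        · exact Relation.ReflTransGen.head ⟨e, heb, he, rfl⟩ (ih _ ⟨e, heb, rfl, he⟩ hel)
      exact h1 _ hbl
    · rintro b1 rfl b2 rfl _
      rfl
    · intro b1 _
      exact Or.inl (Relation.EqvGen.refl _)
    · rintro b1 rfl b2 rfl h2
      exact absurd h2 (lt_irrefl _)
  · push Not at hex
    refine ⟨∅, fun _ => 0, fun e => L.ter e, ?_, ?_, ?_, ?_, ?_⟩
    · rw [WellFounded.wellFounded_iff_has_min]
      intro T hT
      by_contra hno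
      push Not at hno
      obtain ⟨v, hv, h1⟩ := hex T hT
      obtain ⟨u, hu, e, _, h2, h3⟩ := hno v hv
      exact h1 e h3 (by rw [h2]; exact hu)
    · intro b hb
      exact absurd hb (Set.notMem_empty b)
    · intro b hb
      exact absurd hb (Set.notMem_empty b)
    · intro b hb
      exact absurd hb (Set.notMem_empty b)
    · intro b hb
      exact absurd hb (Set.notMem_empty b)

/-- closed sets of vertices -/
def Cl (L : LOG V E) (W : Set V) : Prop := ∀ v ∈ W, ∃ e, L.ter e = v ∧ L.lab e ∈ W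

open Classical in
/-- few labels -/
theorem oneCirc_of_card [Finite V] (hV : Nonempty V) (hinj : Function.Injective L.ter)
    (hne : ∀ e, L.lab e ≠ L.ter e) (h3 : (Set.range L.lab ∩ Set.range L.ter).ncard ≤ 3) :
    OneCirc L := by
  have hfin : ∀ W : Set V, W.Finite := fun W => Set.toFinite W
  by_cases hex : ∃ n : ℕ, ∃ W : Set V, W.Nonempty ∧ Cl L W ∧ W.ncard = n
  · -- a smallest closed set
    obtain ⟨W, hW, hWc, hWn⟩ := Nat.find_spec hex
    have hmin : ∀ W' : Set V, W'.Nonempty → Cl L W' → W.ncard ≤ W'.ncard := by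
      intro W' h1 h2
      rw [hWn]
      exact Nat.find_min' hex ⟨W', h1, h2, rfl⟩
    have hinter : ∀ W1 W2 : Set V, Cl L W1 → Cl L W2 → Cl L (W1 ∩ W2) := by
      rintro W1 W2 h1 h2 v ⟨hv1, hv2⟩
      obtain ⟨e, he, hel⟩ := h1 v hv1
      obtain ⟨f, hf, hfl⟩ := h2 v hv2
      have : e = f := hinj (he.trans hf.symm)
      subst this
      exact ⟨e, he, hel, hfl⟩
    -- every closed set contains a subset of its labels
    have hlab : ∀ W' : Set V, W'.Nonempty → Cl L W' → ∃ W'' ⊆ W', W''.Nonempty ∧ Cl L W'' ∧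
        W'' ⊆ Set.range L.lab ∩ Set.range L.ter ∧ 2 ≤ W''.ncard := by
      intro W' h1 h2
      refine ⟨{v | ∃ e, L.ter e ∈ W' ∧ L.lab e ∈ W' ∧ L.lab e = v}, ?_, ?_, ?_, ?_, ?_⟩
      · rintro _ ⟨e, _, he, rfl⟩
        exact he
      · obtain ⟨v, hv⟩ := h1
        obtain ⟨e, he, hel⟩ := h2 v hv
        exact ⟨L.lab e, e, by rw [he]; exact hv, hel, rfl⟩
      · rintro _ ⟨e, _, he, rfl⟩
        obtain ⟨f, hf, hfl⟩ := h2 _ he
        exact ⟨f, hf, f, by rw [hf]; exact he, hfl, rfl⟩
      · rintro _ ⟨e, _, he, rfl⟩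
        obtain ⟨f, hf, _⟩ := h2 _ he
        exact ⟨⟨e, rfl⟩, ⟨f, hf⟩⟩
      · obtain ⟨v, hv⟩ := h1
        obtain ⟨e, he, hel⟩ := h2 v hv
        obtain ⟨f, hf, hfl⟩ := h2 _ hel
        have hs : ({L.lab e, L.lab f} : Set V) ⊆
            {v | ∃ e, L.ter e ∈ W' ∧ L.lab e ∈ W' ∧ L.lab e = v} := by
          rintro x (rfl | rfl)
          · exact ⟨e, by rw [he]; exact hv, hel, rfl⟩
          · exact ⟨f, by rw [hf]; exact hel, hfl, rfl⟩
        have hc := Set.ncard_le_ncard hs (hfin _)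
        rw [Set.ncard_pair] at hc
        · exact hc
        · rw [← hf]
          exact (hne f).symm
    obtain ⟨s, hsW⟩ := hW
    refine ⟨s, fun W' h1 h2 => ?_⟩
    obtain ⟨W1, hW1s, hW1n, hW1c, hW1r, hW1k⟩ := hlab W' h1 h2
    obtain ⟨W2, hW2s, hW2n, hW2c, hW2r, hW2k⟩ := hlab W ⟨s, hsW⟩ hWc
    by_cases hd : (W1 ∩ W2).Nonempty
    · have h4 := hinter W' W h2 hWc
      have h5 : (W' ∩ W).Nonempty := by
        obtain ⟨x, hx1, hx2⟩ := hd
        exact ⟨x, hW1s hx1, hW2s hx2⟩
      have h6 := hmin _ h5 h4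
      have h7 : W' ∩ W = W := Set.eq_of_subset_of_ncard_le Set.inter_subset_right h6 (hfin _)
      have h8 : s ∈ W' ∩ W := by rw [h7]; exact hsW
      exact h8.1
    · exfalso
      rw [Set.not_nonempty_iff_eq_empty] at hd
      have h4 : (W1 ∪ W2).ncard = W1.ncard + W2.ncard :=
        Set.ncard_union_eq (Set.disjoint_iff_inter_eq_empty.2 hd) (hfin _) (hfin _)
      have h5 := Set.ncard_le_ncard (Set.union_subset hW1r hW2r) (hfin _)
      omega
  · push Not at hex
    obtain ⟨s⟩ := hV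
    exact ⟨s, fun W h1 h2 => absurd rfl (hex W.ncard W h1 h2)⟩

end one

end Pool.Agent.V5helper80.Rt
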