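import Pool.Agent.V5helper80.Rt.Mn
import Pool.Agent.N819.LT.Defs
import Pool.Agent.V5helper80.Rel.Inj

/-!
# Labelled oriented trees: the sequences, and the reverse tree
-/

set_option autoImplicit false

namespace Pool.Agent.V5helper80.Rt

open Pool.Agent.V5helper80.Rel Pool.Agent.V5helper80.One
open Pool.Agent.TH625.LOG Pool.Agent.N819.LT

variable {V E : Type}

section seq
variable [Fintype V] [Fintype E] (L : LOG V E)

open Classical in
/-- sequences for labelled oriented trees -/
theorem exists_seq_lot (hL : L.Conn) (hcard : Fintype.card V = Fintype.card E + 1) (K : Type)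
    [Field K] (b : E) :
    ∃ y : ℤ → V → K, (∀ n, n < 0 → ∀ v, y n v = 0) ∧
      (∀ n e, e ≠ b → y n (L.ini e) + y (n + 1) (L.lab e) =
        y n (L.lab e) + y (n + 1) (L.ter e)) ∧
      ¬ ∀ n, y n (L.ini b) + y (n + 1) (L.lab b) = y n (L.lab b) + y (n + 1) (L.ter b) := by
  obtain ⟨r⟩ : Nonempty V := Fintype.card_pos_iff.1 (by omega)
  have hT : Forest L.ini L.ter := forest_of_log L hL hcard
  obtain ⟨σ⟩ : Nonempty (E ≃ {x : V // x ≠ r}) := by
    refine ⟨Fintype.equivOfCardEq ?_⟩
    rw [Fintype.card_subtype_compl, Fintype.card_subtype_eq]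
    omega
  obtain ⟨z, hz1, hz2, hz3, n0, x0, hz4⟩ := exists_sol (K := K) σ L.ini L.lab L.ter b
  let y : ℤ → V → K := fun n v => if n < 0 then 0 else z n.toNat v
  have hy0 : ∀ n : ℕ, ∀ v, y n v = z n v := by
    intro n v
    simp only [y]
    rw [if_neg (by omega), Int.toNat_natCast]
  have hy1 : ∀ n, n < 0 → ∀ v, y n v = 0 := fun n hn v => if_pos hn
  have hyS : ∀ n : ℕ, ∀ v, y ((n : ℤ) + 1) v = z (n + 1) v := fun n v => hy0 (n + 1) v
  have h00 := hy0 0
  rw [Nat.cast_zero] at h00
  refine ⟨y, hy1, fun n e he => ?_, fun hall => ?_⟩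
  · rcases lt_trichotomy n (-1) with h | h | h
    · rw [hy1 n (by omega), hy1 n (by omega), hy1 (n + 1) (by omega), hy1 (n + 1) (by omega)]
    · subst h
      rw [hy1 (-1) (by norm_num) (L.ini e), hy1 (-1) (by norm_num) (L.lab e),
        show (-1 : ℤ) + 1 = 0 by norm_num, h00, h00]
      exact congrArg (0 + ·) (hz2 e he)
    · obtain ⟨m, rfl⟩ := Int.eq_ofNat_of_zero_le (show 0 ≤ n by omega)
      rw [hy0, hy0, hyS, hyS]
      exact hz3 m e he
  · apply hz4
    refine all_zero (l := L.lab) σ hT n0 z hz1 (fun e => ?_) (fun n e => ?_) x0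
    · by_cases he : e = b
      · subst he
        have h1 := hall (-1)
        rw [hy1 (-1) (by norm_num) (L.ini e), hy1 (-1) (by norm_num) (L.lab e),
          show (-1 : ℤ) + 1 = 0 by norm_num, h00, h00, zero_add, zero_add] at h1
        exact h1
      · exact hz2 e he
    · by_cases he : e = b
      · subst he
        have h1 := hall n
        rw [hy0, hy0, hyS, hyS] at h1
        exact h1
      · exact hz3 n e he

theorem sqs_sub (hL : L.Conn) (hcard : Fintype.card V = Fintype.card E + 1) (R : Set E)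
    (B : Set R) : Sqs (sub L R) B := by
  intro p hp b _
  have : Fact p.Prime := ⟨hp⟩
  obtain ⟨y, h1, h2, h3⟩ := exists_seq_lot L hL hcard (ZMod p) b.1
  exact ⟨y, h1, fun n e he => h2 n e.1 fun h => he (Subtype.ext h), h3⟩

end seq

section rev
variable (L : LOG V E)

/-- the labelled oriented graph with the edges reversed -/
def rev : LOG V E where
  ini := L.ter
  ter := L.ini
  lab := L.lab

theorem rev_conn (hL : L.Conn) : (rev L).Conn := by
  intro x y
  have h : Relation.ReflTransGen L.Adj x y := hL x y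
  induction h with
  | refl => exact Relation.ReflTransGen.refl
  | tail _ hab ih =>
    obtain ⟨e, he⟩ := hab
    exact ih.tail ⟨e, he.symm⟩

/-- the groups are isomorphic -/
theorem locInd_rev (R : Set E) (h : LocInd (sub (rev L) R).G) : LocInd (sub L R).G := by
  let f : (sub L R).G →* (sub (rev L) R).G := liftG _ (fun v => ((sub (rev L) R).gen v)⁻¹) (by
    intro e
    have h1 := gen_rel (sub (rev L) R) e
    have h2 : (sub (rev L) R).gen (L.ter e) * (sub (rev L) R).gen (L.lab e) =
      (sub (rev L) R).gen (L.lab e) * (sub (rev L) R).gen (L.ini e) := h1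
    show ((sub (rev L) R).gen (L.ini e))⁻¹ * ((sub (rev L) R).gen (L.lab e))⁻¹ =
      ((sub (rev L) R).gen (L.lab e))⁻¹ * ((sub (rev L) R).gen (L.ter e))⁻¹
    rw [← mul_inv_rev, ← mul_inv_rev, h2])
  let g : (sub (rev L) R).G →* (sub L R).G := liftG _ (fun v => ((sub L R).gen v)⁻¹) (by
    intro e
    have h1 := gen_rel (sub L R) e
    have h2 : (sub L R).gen (L.ini e) * (sub L R).gen (L.lab e) =
      (sub L R).gen (L.lab e) * (sub L R).gen (L.ter e) := h1
    show ((sub L R).gen (L.ter e))⁻¹ * ((sub L R).gen (L.lab e))⁻¹ =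
      ((sub L R).gen (L.lab e))⁻¹ * ((sub L R).gen (L.ini e))⁻¹
    rw [← mul_inv_rev, ← mul_inv_rev, h2])
  have hgf : g.comp f = MonoidHom.id _ := by
    apply hom_ext
    intro v
    show g (f ((sub L R).gen v)) = (sub L R).gen v
    have h1 : f ((sub L R).gen v) = ((sub (rev L) R).gen v)⁻¹ := liftG_gen _ _ _ _
    have h2 : g ((sub (rev L) R).gen v) = ((sub L R).gen v)⁻¹ := liftG_gen _ _ _ _
    rw [h1, map_inv, h2, inv_inv]
  refine locInd_of_injective h f ?_
  intro x y hxy
  have e1 := DFunLike.congr_fun hgf x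
  have e2 := DFunLike.congr_fun hgf y
  have e3 : g (f x) = g (f y) := congrArg g hxy
  exact e1.symm.trans (e3.trans e2)

end rev

end Pool.Agent.V5helper80.Rt
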