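import Pool.Agent.V5helper80.One.Base

/-!
# Local indicability from the levels, for arbitrary relators of height zero
-/

set_option autoImplicit false

namespace Pool.Agent.V5helper80.Rt

open Monoid (CoprodI)
open Monoid.CoprodI (of)
open Pool.Agent.V5helper80.Rel Pool.Agent.V5helper80.One
open Pool.Agent.TH625.LOG

variable {I E : Type} {G : I → Type} [∀ i, Group (G i)] {T : Hg G}

theorem Phi_line' {X : Type} [Group X] (α : ∀ i, (T.ht i).ker →* X) (Y : I → ℤ → X)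
    (ρ : E → CoprodI G) (hρ : ∀ e, (T.th (ρ e)).toAdd = 0) (m : ℤ)
    (hE : ∀ e k, 0 ≤ k → k ≤ m → Jm α Y (ρ e) k = 1) (e : E)
    (g : CoprodI G) (h0 : 0 ≤ (T.th g).toAdd) (hm : (T.th g).toAdd ≤ m)
    (hk : g * ρ e * g⁻¹ ∈ T.th.ker) : Phi α Y ⟨g * ρ e * g⁻¹, hk⟩ = 1 := by
  show Jm α Y (g * ρ e * g⁻¹) 0 = 1
  rw [Jm_mul, Jm_mul, Jm_inv, zero_add, hE e _ h0 hm, mul_one]
  simp only [map_mul, toAdd_mul, hρ e, add_zero, zero_add, sub_self]
  exact mul_inv_cancel _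

/-- groups for the levels between zero and `b` -/
def Intv (T : Hg G) (ρ : E → CoprodI G) {Q : Type} [Group Q] (π : CoprodI G →* Q)
    (m : ℤ) : Prop :=
  ∃ (X : Type) (_ : Group X) (α : ∀ i, (T.ht i).ker →* X) (Y : I → ℤ → X) (F : X →* Q),
    LocInd X ∧ (∀ e k, 0 ≤ k → k ≤ m → Jm α Y (ρ e) k = 1) ∧ (∀ i g, F (α i g) = π (of g.1)) ∧
      ∀ i k, F (Y i k) = π (of (T.t i)) ^ k

/-- **Local indicability from the levels.** -/
theorem locInd_of_intv (ρ : E → CoprodI G) (hρ : ∀ e, (T.th (ρ e)).toAdd = 0) (r : I)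
    {Q : Type} [Group Q] (π : CoprodI G →* Q) (hsurj : Function.Surjective π)
    (hker : π.ker = Subgroup.normalClosure (Set.range ρ))
    (hint : ∀ m : ℕ, Intv T ρ π m) : LocInd Q := by
  classical
  intro H hH hne
  by_contra hno
  apply hne
  -- the height on the quotient
  have hker' : π.ker ≤ T.th.ker := by
    rw [hker]
    refine Subgroup.normalClosure_le_normal ?_
    rintro _ ⟨e, rfl⟩
    exact Multiplicative.toAdd.injective (hρ e)
  let θ : Q →* Multiplicative ℤ := MonoidHom.liftOfSurjective π hsurj ⟨T.th, hker'⟩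
  have hθ : ∀ w, θ (π w) = T.th w := fun w =>
    MonoidHom.liftOfRightInverse_comp_apply π _ _ ⟨T.th, hker'⟩ w
  have hHker : ∀ x ∈ H, θ x = 1 := by
    intro x hx
    by_contra hne1
    exact hno (surj_of_ne (θ.comp H.subtype) ⟨⟨x, hx⟩, hne1⟩)
  obtain ⟨S, hS⟩ := hH
  have hsurj' := hsurj
  choose lf hlf using hsurj'
  have hlfk : ∀ x ∈ H, lf x ∈ T.th.ker := by
    intro x hx
    rw [MonoidHom.mem_ker, ← hθ, hlf]
    exact hHker x hx
  have hSH : ∀ s ∈ S, s ∈ H := fun s hs => by rw [← hS]; exact Subgroup.subset_closure hs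
  let W : Finset (CoprodI G) := S.image lf
  have hWk : ∀ w ∈ W, w ∈ T.th.ker := by
    intro w hw
    obtain ⟨s, hs, rfl⟩ := Finset.mem_image.1 hw
    exact hlfk s (hSH s hs)
  have hWS : ∀ w ∈ W, π w ∈ H := by
    intro w hw
    obtain ⟨s, hs, rfl⟩ := Finset.mem_image.1 hw
    rw [hlf]
    exact hSH s hs
  let K : Subgroup (CoprodI G) := Subgroup.closure (W : Set (CoprodI G))
  have hK : K.map π = H := by
    rw [MonoidHom.map_closure, ← hS]
    congr 1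
    ext x
    constructor
    · rintro ⟨w, hw, rfl⟩
      obtain ⟨s, hs, rfl⟩ := Finset.mem_image.1 (Finset.mem_coe.1 hw)
      rw [hlf]; exact hs
    · intro hx
      exact ⟨lf x, Finset.mem_coe.2 (Finset.mem_image_of_mem lf hx), hlf x⟩
  have hKk : K ≤ T.th.ker := by
    rw [Subgroup.closure_le]
    intro w hw
    exact hWk w (Finset.mem_coe.1 hw)
  have hex : ∀ w : CoprodI G, ∃ C : Finset (E × CoprodI G), w ∈ W →
      ∃ N : ℕ, 0 < N ∧ ∃ k ∈ ⁅K, K⁆,
        w ^ N * k⁻¹ ∈ Subgroup.closure {x | ∃ q ∈ C, x = q.2 * ρ q.1 * q.2⁻¹} := by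
    intro w
    by_cases hw : w ∈ W
    · obtain ⟨N, hN, h1⟩ := NPI.pow_mem_commutator H ⟨S, hS⟩ hno (π w) (hWS w hw)
      rw [← hK, ← Subgroup.map_commutator] at h1
      obtain ⟨k, hk, hk2⟩ := h1
      obtain ⟨C, hC⟩ := exists_lines ρ (w ^ N * k⁻¹) (by
        rw [← hker, MonoidHom.mem_ker, map_mul, map_inv, map_pow, hk2, mul_inv_cancel])
      exact ⟨C, fun _ => ⟨N, hN, k, hk, hC⟩⟩
    · exact ⟨∅, fun h => absurd h hw⟩
  choose Cf hCf using hex
  let C : Finset (E × CoprodI G) := W.biUnion Cf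
  -- the bound for the levels
  obtain ⟨B, hB⟩ : ∃ B : ℕ, ∀ q ∈ C, |(T.th q.2).toAdd| ≤ B := by
    refine ⟨C.sup fun q => (T.th q.2).toAdd.natAbs, fun q hq => ?_⟩
    have h1 := Finset.le_sup (f := fun q : E × CoprodI G => (T.th q.2).toAdd.natAbs) hq
    rw [Int.abs_eq_natAbs]
    exact_mod_cast h1
  obtain ⟨X, _, α, Y, F, hX, hE, hα, hY⟩ := hint (2 * B)
  let τ0 : CoprodI G := of (T.t r) ^ (B : ℤ)
  have hτ0 : (T.th τ0).toAdd = B := by
    show (T.th (of (T.t r) ^ (B : ℤ))).toAdd = B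
    rw [map_zpow, toAdd_zpow, T.th_of, T.hz_t, smul_eq_mul, mul_one]
  -- the homomorphism
  let κ : T.th.ker →* T.th.ker :=
    { toFun := fun w => ⟨τ0 * w.1 * τ0⁻¹, by
        have h1 : T.th w.1 = 1 := w.2
        rw [MonoidHom.mem_ker, map_mul, map_mul, h1, mul_one, map_inv, mul_inv_cancel]⟩
      map_one' := Subtype.ext (by show τ0 * 1 * τ0⁻¹ = 1; group)
      map_mul' := fun w w' => Subtype.ext (by
        show τ0 * (w.1 * w'.1) * τ0⁻¹ = (τ0 * w.1 * τ0⁻¹) * (τ0 * w'.1 * τ0⁻¹)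
        group) }
  let Ψ : T.th.ker →* X := (Phi α Y).comp κ
  have hΨπ : ∀ w : T.th.ker, Ψ w = 1 → π w.1 = 1 := by
    intro w hw
    have h1 := F_Jm α Y π F 1 hα (fun i k => by rw [hY, one_zpow, inv_one, mul_one]) (τ0 * w.1 * τ0⁻¹) 0
    have h2 : Jm α Y (τ0 * w.1 * τ0⁻¹) 0 = 1 := hw
    have h3 : T.th (τ0 * w.1 * τ0⁻¹) = 1 := (κ w).2
    rw [h2, map_one, h3, toAdd_one, add_zero, zpow_zero, one_mul, inv_one, mul_one, map_mul,
      map_mul, map_inv] at h1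
    exact (conj_eq_one_iff).1 h1.symm
  have hΨl : ∀ q ∈ C, ∀ hk : q.2 * ρ q.1 * q.2⁻¹ ∈ T.th.ker,
      Ψ ⟨q.2 * ρ q.1 * q.2⁻¹, hk⟩ = 1 := by
    intro q hq hk
    have h1 : κ ⟨q.2 * ρ q.1 * q.2⁻¹, hk⟩ = ⟨(τ0 * q.2) * ρ q.1 * (τ0 * q.2)⁻¹, by
        rw [MonoidHom.mem_ker, map_mul, map_mul, show T.th (ρ q.1) = 1 from
          Multiplicative.toAdd.injective (hρ q.1), mul_one, map_inv, mul_inv_cancel]⟩ :=
      Subtype.ext (by
        show τ0 * (q.2 * ρ q.1 * q.2⁻¹) * τ0⁻¹ = (τ0 * q.2) * ρ q.1 * (τ0 * q.2)⁻¹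
        group)
    show Phi α Y (κ ⟨q.2 * ρ q.1 * q.2⁻¹, hk⟩) = 1
    rw [h1]
    have h2 := abs_le.1 (hB q hq)
    refine Phi_line' α Y ρ hρ _ hE q.1 (τ0 * q.2) ?_ ?_ _
    · rw [map_mul, toAdd_mul, hτ0]
      linarith [h2.1]
    · rw [map_mul, toAdd_mul, hτ0]
      push_cast
      linarith [h2.2]
  -- the image is trivial
  let K' : Subgroup T.th.ker := K.comap T.th.ker.subtype
  have hK'fg : (K'.map Ψ).FG := by
    have h1 : K' = Subgroup.closure ((W.attach.image fun w => (⟨w.1, hWk w.1 w.2⟩ : T.th.ker) :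
        Finset T.th.ker) : Set T.th.ker) := by
      apply Subgroup.map_injective T.th.ker.subtype_injective
      rw [MonoidHom.map_closure, Subgroup.map_comap_eq, Subgroup.range_subtype,
        inf_eq_right.2 hKk]
      show Subgroup.closure (W : Set (CoprodI G)) = Subgroup.closure _
      congr 1
      ext x
      constructor
      · intro hx
        exact ⟨⟨x, hWk x hx⟩, Finset.mem_coe.2 (Finset.mem_image.2 ⟨⟨x, hx⟩,
          Finset.mem_attach _ _, rfl⟩), rfl⟩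
      · rintro ⟨y, hy, rfl⟩
        obtain ⟨z, _, rfl⟩ := Finset.mem_image.1 (Finset.mem_coe.1 hy)
        exact z.2
    rw [h1, MonoidHom.map_closure]
    exact ⟨(W.attach.image fun w => (⟨w.1, hWk w.1 w.2⟩ : T.th.ker)).image Ψ, by
      rw [Finset.coe_image]⟩
  have hcomm : ∀ k ∈ ⁅K, K⁆, ∃ hk : k ∈ T.th.ker, (⟨k, hk⟩ : T.th.ker) ∈ ⁅K', K'⁆ := by
    have h1 : ⁅K, K⁆ = ⁅K', K'⁆.map T.th.ker.subtype := by
      rw [Subgroup.map_commutator, Subgroup.map_comap_eq, Subgroup.range_subtype,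
        inf_eq_right.2 hKk]
    intro k hk
    rw [h1] at hk
    obtain ⟨y, hy, rfl⟩ := hk
    exact ⟨y.2, hy⟩
  have htriv : K'.map Ψ = ⊥ := by
    by_contra hnb
    obtain ⟨ψ, hψ⟩ := hX _ hK'fg hnb
    -- generators go to one
    have hgen : ∀ (x : X) (hx : x ∈ K'.map Ψ), ψ ⟨x, hx⟩ = 1 := by
      let ψ' : K' →* Multiplicative ℤ := ψ.comp (Ψ.subgroupMap K')
      have hψ'c : ∀ y (hy : y ∈ K'), y ∈ ⁅K', K'⁆ → ψ' ⟨y, hy⟩ = 1 := by
        intro y hy hyc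
        have h2 : ⁅K', K'⁆ ≤ (ψ'.ker).map K'.subtype := by
          rw [Subgroup.commutator_le]
          intro g hg h hh
          refine ⟨(⟨g, hg⟩ : K') * (⟨h, hh⟩ : K') * (⟨g, hg⟩ : K')⁻¹ * (⟨h, hh⟩ : K')⁻¹, ?_, rfl⟩
          rw [SetLike.mem_coe, MonoidHom.mem_ker, map_mul, map_mul, map_mul, map_inv, map_inv,
            mul_comm (ψ' ⟨g, hg⟩) (ψ' ⟨h, hh⟩), mul_inv_cancel_right, mul_inv_cancel]
        obtain ⟨u, hu, hu2⟩ := h2 hyc
        have : u = ⟨y, hy⟩ := Subtype.ext hu2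
        rw [← this]
        exact hu
      have hψ'w : ∀ w (hw : w ∈ W), ψ' ⟨⟨w, hWk w hw⟩, Subgroup.subset_closure hw⟩ = 1 := by
        intro w hw
        obtain ⟨N, hN, k, hk, h2⟩ := hCf w hw
        obtain ⟨hkk, hkc⟩ := hcomm k hk
        have hkK : (⟨k, hkk⟩ : T.th.ker) ∈ K' := by
          have : ⁅K', K'⁆ ≤ K' := by
            rw [Subgroup.commutator_le]
            intro g hg h hh
            exact K'.mul_mem (K'.mul_mem (K'.mul_mem hg hh) (K'.inv_mem hg)) (K'.inv_mem hh)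
          exact this hkc
        -- the lines have trivial image
        have h3 : ∀ y ∈ Subgroup.closure {x | ∃ q ∈ Cf w, x = q.2 * ρ q.1 * q.2⁻¹},
            ∃ hy : y ∈ T.th.ker, Ψ ⟨y, hy⟩ = 1 := by
          intro y hy
          refine Subgroup.closure_induction (p := fun y _ => ∃ hy : y ∈ T.th.ker,
            Ψ ⟨y, hy⟩ = 1) ?_ ?_ ?_ ?_ hy
          · rintro x ⟨q, hq, rfl⟩
            have hk2 : q.2 * ρ q.1 * q.2⁻¹ ∈ T.th.ker := by
              rw [MonoidHom.mem_ker, map_mul, map_mul, show T.th (ρ q.1) = 1 from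
                Multiplicative.toAdd.injective (hρ q.1), mul_one, map_inv,
                mul_inv_cancel]
            exact ⟨hk2, hΨl q (Finset.mem_biUnion.2 ⟨w, hw, hq⟩) hk2⟩
          · exact ⟨T.th.ker.one_mem, map_one Ψ⟩
          · rintro x y _ _ ⟨hx, hx'⟩ ⟨hy, hy'⟩
            refine ⟨T.th.ker.mul_mem hx hy, ?_⟩
            have : (⟨x * y, T.th.ker.mul_mem hx hy⟩ : T.th.ker) = ⟨x, hx⟩ * ⟨y, hy⟩ := rfl
            rw [this, map_mul, hx', hy', mul_one]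
          · rintro x _ ⟨hx, hx'⟩
            refine ⟨T.th.ker.inv_mem hx, ?_⟩
            have : (⟨x⁻¹, T.th.ker.inv_mem hx⟩ : T.th.ker) = ⟨x, hx⟩⁻¹ := rfl
            rw [this, map_inv, hx', inv_one]
        obtain ⟨hy, hy'⟩ := h3 _ h2
        have h4 : (⟨w ^ N * k⁻¹, hy⟩ : T.th.ker) = ⟨w, hWk w hw⟩ ^ N * (⟨k, hkk⟩ : T.th.ker)⁻¹ :=
          rfl
        rw [h4, map_mul, map_pow, map_inv, mul_inv_eq_one] at hy'
        have h5 : ψ' ⟨⟨w, hWk w hw⟩, Subgroup.subset_closure hw⟩ ^ N = 1 := by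
          rw [← map_pow]
          have h6 : ψ' (⟨⟨w, hWk w hw⟩, Subgroup.subset_closure hw⟩ ^ N) = ψ' ⟨⟨k, hkk⟩, hkK⟩ := by
            show ψ _ = ψ _
            congr 1
            apply Subtype.ext
            show Ψ _ = Ψ _
            rw [← hy', ← map_pow]
            rfl
          rw [h6]
          exact hψ'c _ hkK hkc
        have h6 : (N : ℤ) * (ψ' ⟨⟨w, hWk w hw⟩, Subgroup.subset_closure hw⟩).toAdd = 0 := by
          have := congrArg Multiplicative.toAdd h5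
          rw [toAdd_pow, toAdd_one, nsmul_eq_mul] at this
          exact this
        have h7 : (ψ' ⟨⟨w, hWk w hw⟩, Subgroup.subset_closure hw⟩).toAdd = 0 := by
          rcases mul_eq_zero.1 h6 with h | h
          · exact absurd (Int.natCast_eq_zero.1 h) hN.ne'
          · exact h
        exact Multiplicative.toAdd.injective h7
      rintro x ⟨y, hy, rfl⟩
      show ψ' ⟨y, hy⟩ = 1
      have h2 : ∀ m ∈ K, ∀ (hm : m ∈ T.th.ker) (hm' : (⟨m, hm⟩ : T.th.ker) ∈ K'),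
          ψ' ⟨⟨m, hm⟩, hm'⟩ = 1 := by
        intro m hm
        refine Subgroup.closure_induction (p := fun m _ => ∀ (hm : m ∈ T.th.ker)
          (hm' : (⟨m, hm⟩ : T.th.ker) ∈ K'), ψ' ⟨⟨m, hm⟩, hm'⟩ = 1) ?_ ?_ ?_ ?_ hm
        · intro x hx _ _
          exact hψ'w x hx
        · intro _ _
          exact map_one ψ'
        · intro x y hx hy h1 h2 hm hm'
          have e1 := h1 (hKk hx) hx
          have e2 := h2 (hKk hy) hy
          have : (⟨⟨x * y, hm⟩, hm'⟩ : K') = ⟨⟨x, hKk hx⟩, hx⟩ * ⟨⟨y, hKk hy⟩, hy⟩ := rfl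
          rw [this, map_mul, e1, e2, mul_one]
        · intro x hx h1 hm hm'
          have e1 := h1 (hKk hx) hx
          have : (⟨⟨x⁻¹, hm⟩, hm'⟩ : K') = ⟨⟨x, hKk hx⟩, hx⟩⁻¹ := rfl
          rw [this, map_inv, e1, inv_one]
      exact h2 y.1 hy y.2 hy
    obtain ⟨⟨x, hx⟩, hx1⟩ := hψ (Multiplicative.ofAdd 1)
    rw [hgen x hx] at hx1
    exact absurd hx1 (by decide)
  rw [← hS, Subgroup.closure_eq_bot_iff]
  intro x hx
  have hxW : lf x ∈ W := Finset.mem_image_of_mem lf hx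
  have h1 : Ψ ⟨lf x, hWk _ hxW⟩ = 1 := by
    have h2 : Ψ ⟨lf x, hWk _ hxW⟩ ∈ K'.map Ψ := ⟨_, Subgroup.subset_closure hxW, rfl⟩
    rw [htriv, Subgroup.mem_bot] at h2
    exact h2
  have h2 := hΨπ _ h1
  simp only at h2
  rw [hlf] at h2
  exact h2

end Pool.Agent.V5helper80.Rt
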