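import Pool.Agent.V5helper80.One.Seq
import Pool.Agent.V5helper80.Rt.Cha

/-!
# Solutions of the linear system of the levels
-/

set_option autoImplicit false

namespace Pool.Agent.V5helper80.Rt

open Matrix Pool.Agent.TH625.LOG Pool.Agent.V5helper80.Rel Pool.Agent.V5helper80.One

section amat
variable {I E : Type} [Fintype I] [Fintype E] [DecidableEq E] [DecidableEq I] {r : I}
  {σ : E ≃ {x : I // x ≠ r}} {K : Type} [Field K]

omit [Fintype I] in
/-- the coefficients of the product with a power series -/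
theorem coeff_amat (i l t : E → I) (z : ℕ → I → K) (hzr : ∀ n, z n r = 0) (e : E) :
    PowerSeries.coeff 0 (((Polynomial.coeToPowerSeries.ringHom : Polynomial K →+* _).mapMatrix
      (amat σ K i l t) *ᵥ fun a => PowerSeries.mk fun n => z n (σ a).1) e) =
        z 0 (l e) - z 0 (t e) ∧
    ∀ n, PowerSeries.coeff (n + 1)
      (((Polynomial.coeToPowerSeries.ringHom : Polynomial K →+* _).mapMatrix
        (amat σ K i l t) *ᵥ fun a => PowerSeries.mk fun n => z n (σ a).1) e) =
        z n (i e) - z n (l e) + (z (n + 1) (l e) - z (n + 1) (t e)) := by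
  let ρ : Polynomial K →+* PowerSeries K := Polynomial.coeToPowerSeries.ringHom
  have h1 : (ρ.mapMatrix (amat σ K i l t) *ᵥ fun a => PowerSeries.mk fun n => z n (σ a).1) e =
      PowerSeries.X * (∑ a, PowerSeries.C (inc σ K i l e a) *
        PowerSeries.mk fun n => z n (σ a).1) +
      ∑ a, PowerSeries.C (inc σ K l t e a) * PowerSeries.mk fun n => z n (σ a).1 := by
    show ∑ a, ρ (amat σ K i l t e a) * _ = _
    rw [Finset.mul_sum, ← Finset.sum_add_distrib]
    refine Finset.sum_congr rfl fun a _ => ?_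
    have h2 : ρ (amat σ K i l t e a) = PowerSeries.X * PowerSeries.C (inc σ K i l e a) +
        PowerSeries.C (inc σ K l t e a) := by
      show ρ (Polynomial.X * Polynomial.C _ + Polynomial.C _) = _
      rw [map_add, map_mul]
      simp only [ρ, Polynomial.coeToPowerSeries.ringHom_apply, Polynomial.coe_X,
        Polynomial.coe_C]
    rw [h2, add_mul, mul_assoc]
  have h3 : ∀ (p q : E → I) (m : ℕ), PowerSeries.coeff m (∑ a, PowerSeries.C (inc σ K p q e a) *
      PowerSeries.mk fun n => z n (σ a).1) = z m (p e) - z m (q e) := by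
    intro p q m
    rw [map_sum, ← congrFun (inc_mulVec (σ := σ) p q (z m) (hzr m)) e]
    refine Finset.sum_congr rfl fun a _ => ?_
    rw [PowerSeries.coeff_C_mul, PowerSeries.coeff_mk]
  rw [h1]
  refine ⟨?_, fun n => ?_⟩
  · rw [map_add, PowerSeries.coeff_zero_X_mul, zero_add, h3]
  · rw [map_add, PowerSeries.coeff_succ_X_mul, h3, h3]

omit [Fintype I] in
/-- a nonzero solution, if one of the relations is dropped -/
theorem exists_sol (σ : E ≃ {x : I // x ≠ r}) (i l t : E → I) (b : E) :
    ∃ z : ℕ → I → K, (∀ n, z n r = 0) ∧ (∀ e, e ≠ b → z 0 (l e) = z 0 (t e)) ∧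
      (∀ n e, e ≠ b → z n (i e) + z (n + 1) (l e) = z n (l e) + z (n + 1) (t e)) ∧
      ∃ n x, z n x ≠ 0 := by
  let M : Matrix E E (PowerSeries K) :=
    (Polynomial.coeToPowerSeries.ringHom : Polynomial K →+* _).mapMatrix (amat σ K i l t)
  have hdet : (M.updateRow b 0).det = 0 :=
    Matrix.det_eq_zero_of_row_eq_zero b fun a => by rw [Matrix.updateRow_self]; rfl
  obtain ⟨v, hv, hMv⟩ := Matrix.exists_mulVec_eq_zero_iff.2 hdet
  let z : ℕ → I → K := fun n x => if h : x = r then 0 else
    PowerSeries.coeff n (v (σ.symm ⟨x, h⟩))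
  have hzr : ∀ n, z n r = 0 := fun n => dif_pos rfl
  have hzσ : ∀ n a, z n (σ a).1 = PowerSeries.coeff n (v a) := by
    intro n a
    simp only [z]
    rw [dif_neg (σ a).2]
    congr 2
    exact (Equiv.symm_apply_apply σ a)
  have hv' : v = fun a => PowerSeries.mk fun n => z n (σ a).1 := by
    funext a
    ext n
    rw [PowerSeries.coeff_mk, hzσ]
  have hMe : ∀ e, e ≠ b → (M *ᵥ v) e = 0 := by
    intro e he
    have h1 := congrFun hMv e
    rw [Pi.zero_apply] at h1
    rw [← h1]
    show M e ⬝ᵥ v = (M.updateRow b 0) e ⬝ᵥ v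
    rw [Matrix.updateRow_ne he]
  refine ⟨z, hzr, fun e he => ?_, fun n e he => ?_, ?_⟩
  · have h1 := (coeff_amat (σ := σ) i l t z hzr e).1
    rw [← hv'] at h1
    have h2 : PowerSeries.coeff 0 ((M *ᵥ v) e) = z 0 (l e) - z 0 (t e) := h1
    rw [hMe e he, map_zero] at h2
    exact (sub_eq_zero.1 h2.symm)
  · have h1 := (coeff_amat (σ := σ) i l t z hzr e).2 n
    rw [← hv'] at h1
    have h2 : PowerSeries.coeff (n + 1) ((M *ᵥ v) e) =
      z n (i e) - z n (l e) + (z (n + 1) (l e) - z (n + 1) (t e)) := h1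
    rw [hMe e he, map_zero] at h2
    linear_combination -h2
  · by_contra hno
    push Not at hno
    apply hv
    funext a
    ext n
    rw [← hzσ, hno]
    rfl

theorem all_zero {i l t : E → I} (σ : E ≃ {x : I // x ≠ r}) (hT : Forest i t) (n : ℕ) :
    ∀ (z : ℕ → I → K) (_ : ∀ n, z n r = 0) (_ : ∀ e, z 0 (l e) = z 0 (t e))
      (_ : ∀ n e, z n (i e) + z (n + 1) (l e) = z n (l e) + z (n + 1) (t e)) (x : I),
      z n x = 0 := by
  induction n with
  | zero => exact fun z hzr h0 h x => seq_zero σ hT z hzr h0 h x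
  | succ n ih =>
    intro z hzr h0 h x
    have hz0 : ∀ x, z 0 x = 0 := fun x => seq_zero σ hT z hzr h0 h x
    refine ih (fun m => z (m + 1)) (fun m => hzr _) (fun e => ?_) (fun m e => h (m + 1) e) x
    have h1 := h 0 e
    rw [hz0 (i e), hz0 (l e)] at h1
    show z (0 + 1) (l e) = z (0 + 1) (t e)
    linear_combination h1

end amat

section log
open Classical
variable {V E : Type} (L : LOG V E)

/-- the index of a vertex: the edge which ends there -/
noncomputable def qt (v : V) : Option E := if h : ∃ e, L.ter e = v then some h.choose else none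

variable {L}

theorem qt_ter (hinj : Function.Injective L.ter) (e : E) : qt L (L.ter e) = some e := by
  have h : ∃ f, L.ter f = L.ter e := ⟨e, rfl⟩
  unfold qt
  rw [dif_pos h, hinj h.choose_spec]

theorem qt_some {v : V} {e : E} (h : qt L v = some e) : L.ter e = v := by
  unfold qt at h
  by_cases h1 : ∃ e, L.ter e = v
  · rw [dif_pos h1] at h
    rw [← Option.some.inj h]
    exact h1.choose_spec
  · rw [dif_neg h1] at h
    exact absurd h (Option.some_ne_none e).symm

theorem qt_none {v : V} (h : ∀ e, L.ter e ≠ v) : qt L v = none := by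
  unfold qt
  rw [dif_neg]
  rintro ⟨e, he⟩
  exact h e he

theorem forest_qt (hinj : Function.Injective L.ter)
    (hac : WellFounded fun u v => ∃ e, L.ini e = u ∧ L.ter e = v) :
    Forest (fun e => qt L (L.ini e)) (fun e => qt L (L.ter e)) := by
  intro U D hU hD
  have h1 : (D.image fun e => qt L (L.ter e)) ⊆ U := by
    intro x hx
    obtain ⟨e, he, rfl⟩ := Finset.mem_image.1 hx
    exact (hD e he).2
  have hinj' : Function.Injective fun e => qt L (L.ter e) := by
    intro e f hef
    simp only [qt_ter hinj] at hef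
    exact Option.some.inj hef
  rw [← Finset.card_image_of_injective D hinj', Nat.succ_le_iff]
  refine Finset.card_lt_card (Finset.ssubset_iff_subset_ne.2 ⟨h1, fun heq => ?_⟩)
  -- every element is the index of a vertex
  have h2 : ∀ x ∈ U, ∃ e ∈ D, x = some e := by
    intro x hx
    rw [← heq] at hx
    obtain ⟨e, he, rfl⟩ := Finset.mem_image.1 hx
    exact ⟨e, he, qt_ter hinj e⟩
  let T : Set V := {v | ∃ e ∈ D, L.ter e = v}
  obtain ⟨x, hx⟩ := hU
  obtain ⟨e0, he0, -⟩ := h2 x hx
  obtain ⟨v, ⟨e, he, hv⟩, hmin⟩ := hac.has_min T ⟨L.ter e0, e0, he0, rfl⟩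
  obtain ⟨f, hf, hf'⟩ := h2 _ (hD e he).1
  exact hmin (L.ini e) ⟨f, hf, qt_some hf'⟩ ⟨e, rfl, hv⟩

/-- the enumeration of the indices -/
def so (E : Type) : E ≃ {x : Option E // x ≠ none} where
  toFun e := ⟨some e, Option.some_ne_none e⟩
  invFun x := x.1.get (Option.isSome_iff_ne_none.2 x.2)
  left_inv _ := rfl
  right_inv _ := Subtype.ext (Option.some_get _)

variable [Fintype E] {K : Type} [Field K]

/-- **A nonzero sequence which satisfies all relations except one, but not this one.** -/
theorem exists_seq (hinj : Function.Injective L.ter)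
    (hac : WellFounded fun u v => ∃ e, L.ini e = u ∧ L.ter e = v) (b : E) :
    ∃ y : ℤ → V → K, (∀ n, n < 0 → ∀ v, y n v = 0) ∧
      (∀ n e, e ≠ b → y n (L.ini e) + y (n + 1) (L.lab e) =
        y n (L.lab e) + y (n + 1) (L.ter e)) ∧
      ¬ ∀ n, y n (L.ini b) + y (n + 1) (L.lab b) = y n (L.lab b) + y (n + 1) (L.ter b) := by
  obtain ⟨z, hz1, hz2, hz3, n0, x0, hz4⟩ := exists_sol (K := K) (so E)
    (fun e => qt L (L.ini e)) (fun e => qt L (L.lab e)) (fun e => qt L (L.ter e)) b
  let y : ℤ → V → K := fun n v => if n < 0 then 0 else z n.toNat (qt L v)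
  have hy0 : ∀ n : ℕ, ∀ v, y n v = z n (qt L v) := by
    intro n v
    simp only [y]
    rw [if_neg (by omega), Int.toNat_natCast]
  have hy1 : ∀ n, n < 0 → ∀ v, y n v = 0 := fun n hn v => if_pos hn
  have hyS : ∀ n : ℕ, ∀ v, y ((n : ℤ) + 1) v = z (n + 1) (qt L v) := fun n v => hy0 (n + 1) v
  refine ⟨y, hy1, fun n e he => ?_, fun hall => ?_⟩
  · rcases lt_trichotomy n (-1) with h | h | h
    · rw [hy1 n (by omega), hy1 n (by omega), hy1 (n + 1) (by omega), hy1 (n + 1) (by omega)]
    · subst h
      have h1 := hy0 0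
      rw [Nat.cast_zero] at h1
      rw [hy1 (-1) (by norm_num) (L.ini e), hy1 (-1) (by norm_num) (L.lab e),
        show (-1 : ℤ) + 1 = 0 by norm_num, h1, h1]
      exact congrArg (0 + ·) (hz2 e he)
    · obtain ⟨m, rfl⟩ := Int.eq_ofNat_of_zero_le (show 0 ≤ n by omega)
      rw [hy0, hy0, hyS, hyS]
      exact hz3 m e he
  · apply hz4
    refine all_zero (l := fun e => qt L (L.lab e)) (so E) (forest_qt hinj hac) n0 z hz1
      (fun e => ?_) (fun n e => ?_) x0
    · by_cases he : e = b
      · subst he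
        have h1 := hall (-1)
        have h2 := hy0 0
        rw [Nat.cast_zero] at h2
        rw [hy1 (-1) (by norm_num) (L.ini e), hy1 (-1) (by norm_num) (L.lab e),
          show (-1 : ℤ) + 1 = 0 by norm_num, h2, h2, zero_add, zero_add] at h1
        exact h1
      · exact hz2 e he
    · by_cases he : e = b
      · subst he
        have h1 := hall n
        rw [hy0, hy0, hyS, hyS] at h1
        exact h1
      · exact hz3 n e he

end log

end Pool.Agent.V5helper80.Rt
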