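import Pool.Agent.V5helper80.One.Base

/-!
# Towers of one-relator products
-/

set_option autoImplicit false

namespace Pool.Agent.V5helper80.Rt

open Monoid (CoprodI)
open Monoid.CoprodI (of)
open Pool.Agent.V5helper80.Rel Pool.Agent.V5helper80.One
open Pool.Agent.TH625.LOG

variable {A : Type}

open Classical in
/-- the endomorphism which kills the letter `a` -/
noncomputable def kil (a : A) : FreeGroup A →* FreeGroup A :=
  FreeGroup.lift fun b => if b = a then 1 else FreeGroup.of b

theorem kil_ne {a b : A} (h : b ≠ a) : kil a (FreeGroup.of b) = FreeGroup.of b := by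
  unfold kil
  rw [FreeGroup.lift_apply_of, if_neg h]

theorem kil_self (a : A) : kil a (FreeGroup.of a) = 1 := by
  unfold kil
  rw [FreeGroup.lift_apply_of, if_pos rfl]

section ex
variable {P : Type} [Group P]

/-- **One relator which is not conjugate into the first factor.** -/
theorem locInd_ex' (hP : LocInd P) (r : Ex P) (hr : ∀ (g : Ex P) (x : P), g * r * g⁻¹ ≠ inA x)
    (hprop : ∀ (v : Ex P) (k : ℤ), v ^ k = r → k = 1 ∨ k = -1) :
    LocInd (Ex P ⧸ Subgroup.normalClosure {r}) := by
  obtain ⟨g, hg⟩ := cyc_red' r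
  rcases hg with hg | ⟨i, x, hg⟩ | ⟨R, hg⟩
  · exact absurd (hg.trans (map_one (inA (P := P))).symm) (hr g 1)
  · cases i with
    | a => exact absurd hg (hr g x)
    | z =>
      have hx : g * r * g⁻¹ = zz ^ (show Multiplicative ℤ from x).toAdd := hg.trans (of_z x)
      set k := (show Multiplicative ℤ from x).toAdd with hkdef
      by_cases hk0 : k = 0
      · rw [hk0, zpow_zero] at hx
        exact absurd (hx.trans (map_one (inA (P := P))).symm) (hr g 1)
      · refine locInd_ex hP r ?_ hprop
        intro h1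
        have h2 : ex (g * r * g⁻¹) = 1 := by
          rw [map_mul, map_mul, map_inv, h1, mul_one, mul_inv_cancel]
        rw [hx, map_zpow, ex_zz, ← ofAdd_zsmul, smul_eq_mul, mul_one] at h2
        exact hk0 (Multiplicative.ofAdd.injective h2)
  · refine locInd_one R ?_ ?_ (QuotientGroup.mk' _) (QuotientGroup.mk'_surjective _) ?_
    · intro i
      cases i with
      | a => exact hP
      | z => exact locInd_int
    · intro v k hv
      refine hprop (g⁻¹ * v * g) k ?_
      have h1 : (g⁻¹ * v * g) ^ k = g⁻¹ * v ^ k * g := by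
        have := conj_zpow (a := g⁻¹) (b := v) (i := k)
        rwa [inv_inv] at this
      rw [h1, hv, hg]
      group
    · rw [QuotientGroup.ker_mk', hg, normalClosure_conj]

end ex

/-- the test for a relator `r` and a letter `a`: a homomorphism to a free product `Γ * ℤ` which kills
the relators of `R`, maps the letters different from `a` to `Γ`, and `r` to an element which is not
conjugate to an element of `Γ` -/
def Tst (R : Set (FreeGroup A)) (a : A) (r : FreeGroup A) : Prop :=
  ∃ (Γ : Type) (_ : Group Γ) (ψ : FreeGroup A →* Ex Γ),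
    (∀ c, c ≠ a → ∃ x : Γ, ψ (FreeGroup.of c) = inA x) ∧ (∀ r' ∈ R, ψ r' = 1) ∧
      ∀ (g : Ex Γ) (x : Γ), g * ψ r * g⁻¹ ≠ inA x

section step
variable (R : Set (FreeGroup A)) (a : A) (hR : ∀ r ∈ R, kil a r = r)

/-- the projection -/
def pj (R : Set (FreeGroup A)) : FreeGroup A →* PresentedGroup R := PresentedGroup.mk R

theorem pj_surj : Function.Surjective (pj R) := QuotientGroup.mk_surjective

theorem pj_one {r : FreeGroup A} (hr : r ∈ R) : pj R r = 1 := PresentedGroup.one_of_mem hr

/-- homomorphisms of the presented group -/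
def lf {R : Set (FreeGroup A)} {H : Type} [Group H] (f : FreeGroup A →* H)
    (hf : ∀ r ∈ R, f r = 1) : PresentedGroup R →* H :=
  QuotientGroup.lift _ f (by
    intro x hx
    have h1 : Subgroup.normalClosure R ≤ f.ker :=
      Subgroup.normalClosure_le_normal fun r hr => hf r hr
    exact h1 hx)

theorem lf_pj {R : Set (FreeGroup A)} {H : Type} [Group H] (f : FreeGroup A →* H)
    (hf : ∀ r ∈ R, f r = 1) (w : FreeGroup A) : lf f hf (pj R w) = f w := rfl

include hR in
open Classical in
/-- adding a relator which contains a new letter -/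
theorem locInd_step (hG : LocInd (PresentedGroup R)) (r : FreeGroup A) (hx : Tst R a r)
    (hp : ∀ (v : PresentedGroup R) (k : ℤ), v ^ k = pj R r → k = 1 ∨ k = -1) :
    LocInd (PresentedGroup (insert r R)) := by
  -- the retraction
  let κ : PresentedGroup R →* PresentedGroup R := lf ((pj R).comp (kil a)) (by
    intro x hx
    show pj R (kil a x) = 1
    rw [hR x hx]
    exact pj_one R hx)
  have hκ : ∀ w, κ (pj R w) = pj R (kil a w) := fun w => rfl
  let P : Subgroup (PresentedGroup R) := κ.range
  have hP : LocInd P := locInd_of_injective hG P.subtype P.subtype_injective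
  let κ' : PresentedGroup R →* P := κ.rangeRestrict
  let f : FreeGroup A →* Ex P := FreeGroup.lift fun b =>
    if b = a then zz else inA (κ' (pj R (FreeGroup.of b)))
  have hfa : f (FreeGroup.of a) = zz := by
    simp only [f]
    rw [FreeGroup.lift_apply_of, if_pos rfl]
  have hfb : ∀ b, b ≠ a → f (FreeGroup.of b) = inA (κ' (pj R (FreeGroup.of b))) := by
    intro b hb
    simp only [f]
    rw [FreeGroup.lift_apply_of, if_neg hb]
  have hfκ : f.comp (kil a) = (inA.comp κ').comp (pj R) := by
    refine FreeGroup.ext_hom _ _ fun b => ?_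
    by_cases hb : b = a
    · subst hb
      have h1 : kil b (FreeGroup.of b) = 1 := by
        unfold kil
        rw [FreeGroup.lift_apply_of, if_pos rfl]
      have h2 : κ' (pj R (FreeGroup.of b)) = 1 := by
        apply Subtype.ext
        show κ (pj R (FreeGroup.of b)) = 1
        rw [hκ, h1, map_one]
      show f (kil b (FreeGroup.of b)) = inA (κ' (pj R (FreeGroup.of b)))
      rw [h1, h2, map_one, map_one]
    · show f (kil a (FreeGroup.of b)) = inA (κ' (pj R (FreeGroup.of b)))
      rw [kil_ne hb, hfb b hb]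
  have hfκ' : ∀ w, f (kil a w) = inA (κ' (pj R w)) := fun w => DFunLike.congr_fun hfκ w
  let Φ : PresentedGroup R →* Ex P := lf f (by
    intro x hx
    rw [← hR x hx, hfκ', pj_one R hx, map_one, map_one])
  have hΦ : ∀ w, Φ (pj R w) = f w := fun w => rfl
  let Ψ : Ex P →* PresentedGroup R := liftE P.subtype (pj R (FreeGroup.of a))
  have hΨΦ : ∀ w, Ψ (f w) = pj R w := by
    intro w
    have h1 : Ψ.comp f = pj R := by
      refine FreeGroup.ext_hom _ _ fun b => ?_
      by_cases hb : b = a
      · subst hb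
        show Ψ (f (FreeGroup.of b)) = _
        rw [hfa]
        exact liftE_zz _ _
      · show Ψ (f (FreeGroup.of b)) = _
        rw [hfb b hb]
        have h2 : Ψ (inA (κ' (pj R (FreeGroup.of b)))) = P.subtype (κ' (pj R (FreeGroup.of b))) :=
          liftE_inA _ _ _
        rw [h2]
        show κ (pj R (FreeGroup.of b)) = _
        rw [hκ, kil_ne hb]
    exact DFunLike.congr_fun h1 w
  have hΦΨ : ∀ x, Φ (Ψ x) = x := by
    intro x
    have h1 : Φ.comp Ψ = MonoidHom.id _ := by
      refine ext_E (fun x => ?_) ?_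
      · obtain ⟨x, g, rfl⟩ := x
        obtain ⟨w, rfl⟩ := pj_surj R g
        show Φ (Ψ (inA (κ' (pj R w)))) = inA (κ' (pj R w))
        have h2 : Ψ (inA (κ' (pj R w))) = κ (pj R w) := liftE_inA _ _ _
        rw [h2, hκ, hΦ, hfκ']
      · show Φ (Ψ zz) = zz
        have h2 : Ψ zz = pj R (FreeGroup.of a) := liftE_zz _ _
        rw [h2, hΦ, hfa]
    exact DFunLike.congr_fun h1 x
  have hex : ∀ (g : Ex P) (x : P), g * f r * g⁻¹ ≠ inA x := by
    intro g x hgx
    obtain ⟨Γ, _, ψ, h1, h2, h3⟩ := hx
    let ψ' : PresentedGroup R →* Ex Γ := lf ψ h2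
    -- the image of the retract
    have h4 : ∀ w, ∃ y, ψ (kil a w) = inA y := by
      have h5 : (⊤ : Subgroup (FreeGroup A)) ≤ (inA (P := Γ)).range.comap (ψ.comp (kil a)) := by
        rw [← FreeGroup.closure_range_of, Subgroup.closure_le]
        rintro _ ⟨c, rfl⟩
        show ψ (kil a (FreeGroup.of c)) ∈ (inA (P := Γ)).range
        by_cases hc : c = a
        · rw [hc, kil_self, map_one]
          exact Subgroup.one_mem _
        · rw [kil_ne hc]
          obtain ⟨y, hy⟩ := h1 c hc
          exact ⟨y, hy.symm⟩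
      intro w
      obtain ⟨y, hy⟩ := h5 (Subgroup.mem_top w)
      exact ⟨y, hy.symm⟩
    obtain ⟨x, g', rfl⟩ := x
    obtain ⟨w, rfl⟩ := pj_surj R g'
    have h6 := congrArg Ψ hgx
    have h7 : Ψ (inA (⟨κ (pj R w), ⟨pj R w, rfl⟩⟩ : P)) = κ (pj R w) := liftE_inA _ _ _
    rw [map_mul, map_mul, map_inv, hΨΦ, h7, hκ] at h6
    have h8 := congrArg ψ' h6
    rw [map_mul, map_mul, map_inv] at h8
    obtain ⟨y, hy⟩ := h4 w
    exact h3 (ψ' (Ψ g)) y (h8.trans hy)
  have hLI := locInd_ex' hP (f r) hex (by
    intro v k hv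
    refine hp (Ψ v) k ?_
    rw [← map_zpow, hv, hΨΦ])
  let q : Ex P →* Ex P ⧸ Subgroup.normalClosure {f r} := QuotientGroup.mk' _
  have hqr : q (f r) = 1 :=
    (QuotientGroup.eq_one_iff _).2 (Subgroup.subset_normalClosure (Set.mem_singleton _))
  let Θ : PresentedGroup (insert r R) →* Ex P ⧸ Subgroup.normalClosure {f r} :=
    lf (q.comp f) (by
      intro x hx
      rcases Set.mem_insert_iff.1 hx with h | h
      · rw [h]
        exact hqr
      · have h7 : f x = 1 := by rw [← hΦ, pj_one R h, map_one]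
        exact (congrArg q h7).trans (map_one q))
  let ι : PresentedGroup R →* PresentedGroup (insert r R) := lf (pj (insert r R)) fun x hx =>
    pj_one _ (Set.mem_insert_of_mem _ hx)
  let Ξ : (Ex P ⧸ Subgroup.normalClosure {f r}) →* PresentedGroup (insert r R) :=
    QuotientGroup.lift _ (ι.comp Ψ) (by
      intro x hx
      have h1 : Subgroup.normalClosure {f r} ≤ (ι.comp Ψ).ker := by
        refine Subgroup.normalClosure_le_normal (Set.singleton_subset_iff.2 ?_)
        show ι (Ψ (f r)) = 1
        rw [hΨΦ]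
        exact pj_one _ (Set.mem_insert _ _)
      exact h1 hx)
  refine locInd_of_injective hLI Θ ?_
  have h3 : ∀ x, Ξ (Θ x) = x := by
    intro x
    obtain ⟨w, rfl⟩ := pj_surj _ x
    show ι (Ψ (f w)) = _
    rw [hΨΦ]
    rfl
  intro x y hxy
  rw [← h3 x, ← h3 y, hxy]

end step

/-- free groups -/
theorem locInd_free (A : Type) : LocInd (PresentedGroup (∅ : Set (FreeGroup A))) := by
  have h := locInd_coprod (I := A) (G := fun _ => Multiplicative ℤ) fun _ => locInd_int
  let f : FreeGroup A →* CoprodI (fun _ : A => Multiplicative ℤ) :=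
    FreeGroup.lift fun a => of (i := a) (Multiplicative.ofAdd (1 : ℤ))
  let Θ : PresentedGroup (∅ : Set (FreeGroup A)) →* CoprodI (fun _ : A => Multiplicative ℤ) :=
    lf f (by intro r hr; exact absurd hr (Set.notMem_empty r))
  let Ξ : CoprodI (fun _ : A => Multiplicative ℤ) →* PresentedGroup (∅ : Set (FreeGroup A)) :=
    Monoid.CoprodI.lift fun a => zpowersHom _ (pj ∅ (FreeGroup.of a))
  refine locInd_of_injective h Θ ?_
  have h3 : ∀ w, Ξ (f w) = pj ∅ w := by
    intro w
    have h1 : Ξ.comp f = pj ∅ := by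
      refine FreeGroup.ext_hom _ _ fun b => ?_
      show Ξ (f (FreeGroup.of b)) = _
      have h2 : f (FreeGroup.of b) = of (i := b) (Multiplicative.ofAdd (1 : ℤ)) :=
        FreeGroup.lift_apply_of
      rw [h2]
      have h4 : Ξ (of (i := b) (Multiplicative.ofAdd (1 : ℤ))) =
          zpowersHom _ (pj ∅ (FreeGroup.of b)) (Multiplicative.ofAdd (1 : ℤ)) :=
        Monoid.CoprodI.lift_of _ _
      rw [h4, zpowersHom_apply]
      simp
    exact DFunLike.congr_fun h1 w
  intro x y hxy
  obtain ⟨w, rfl⟩ := pj_surj _ x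
  obtain ⟨w', rfl⟩ := pj_surj _ y
  rw [← h3 w, ← h3 w']
  exact congrArg Ξ hxy

/-- **Towers of one-relator products.** -/
theorem locInd_tower {ι Ω : Type} [LinearOrder Ω] (key : ι → Ω) (hkey : Function.Injective key)
    (r : ι → FreeGroup A) (a : ι → A) (h1 : ∀ i j, key i < key j → kil (a j) (r i) = r i)
    (h2 : ∀ i, Tst {x | ∃ j, key j < key i ∧ x = r j} (a i) (r i))
    (h3 : ∀ (i : ι) (p : ℕ), p.Prime → ∃ φ : FreeGroup A →* Multiplicative (ZMod p),
      (∀ j, key j < key i → φ (r j) = 1) ∧ φ (r i) ≠ 1) (S : Finset ι) :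
    LocInd (PresentedGroup (r '' (S : Set ι))) := by
  classical
  induction S using Finset.strongInduction with
  | _ S ih =>
    rcases S.eq_empty_or_nonempty with hS | hS
    · rw [hS, Finset.coe_empty, Set.image_empty]
      exact locInd_free A
    · obtain ⟨i, hi, hmax⟩ := S.exists_max_image key hS
      have hlt : ∀ j ∈ S.erase i, key j < key i := by
        intro j hj
        obtain ⟨hne, hj'⟩ := Finset.mem_erase.1 hj
        exact lt_of_le_of_ne (hmax j hj') fun h => hne (hkey h)
      have h4 : r '' (S : Set ι) = insert (r i) (r '' ((S.erase i : Finset ι) : Set ι)) := by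
        rw [← Set.image_insert_eq, ← Finset.coe_insert, Finset.insert_erase hi]
      rw [h4]
      refine locInd_step _ (a i) ?_ (ih _ (Finset.erase_ssubset hi)) (r i) ?_ ?_
      · rintro _ ⟨j, hj, rfl⟩
        exact h1 j i (hlt j hj)
      · obtain ⟨Γ, _, ψ, e1, e2, e3⟩ := h2 i
        refine ⟨Γ, inferInstance, ψ, e1, ?_, e3⟩
        rintro _ ⟨j, hj, rfl⟩
        exact e2 _ ⟨j, hlt j hj, rfl⟩
      · intro v k hv
        by_contra hk
        have hk1 : k.natAbs ≠ 1 := fun h => hk (Int.natAbs_eq_iff.1 h)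
        obtain ⟨q, hq, hqk⟩ := Nat.exists_prime_and_dvd hk1
        obtain ⟨φ, hφ1, hφ2⟩ := h3 i q hq
        apply hφ2
        have h5 : ∀ x ∈ r '' ((S.erase i : Finset ι) : Set ι), φ x = 1 := by
          rintro _ ⟨j, hj, rfl⟩
          exact hφ1 j (hlt j hj)
        have h6 := congrArg (lf φ h5) hv
        rw [map_zpow, lf_pj] at h6
        rw [← h6]
        have hqk' : ((k : ℤ) : ZMod q) = 0 := by
          rw [ZMod.intCast_zmod_eq_zero_iff_dvd]
          exact Int.natCast_dvd.2 hqk
        apply Multiplicative.toAdd.injective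
        rw [toAdd_zpow, toAdd_one, zsmul_eq_mul, hqk', zero_mul]

end Pool.Agent.V5helper80.Rt
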