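import Pool.Agent.V5helper80.Rt.Lvl
import Pool.Agent.V5helper80.Rt.Sol
import Pool.Agent.V5helper80.Rt.Tow
import Pool.Agent.V5helper80.Rt.Cn
import Pool.Agent.TH625.LOG.Cov

/-!
# Local indicability from words which are equivalent to the relations of the circuits
-/

set_option autoImplicit false

namespace Pool.Agent.V5helper80.Rt

open Monoid (CoprodI)
open Monoid.CoprodI (of)
open Pool.Agent.V5helper80.Rel Pool.Agent.V5helper80.One
open Pool.Agent.TH625.LOG

variable {V E : Type} {L : LOG V E} {B : Set E} (C : Cn L B)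

/-- the generators of the levels -/
def Cn.xx : ℕ → V → FreeGroup (ℕ × V)
  | 0 => fun v => FreeGroup.of (0, v)
  | k + 1 => fun v => ev L (Cn.xx k) (C.ch v) * FreeGroup.of (k + 1, C.ka v)

theorem Cn.nx_xx (k : ℕ) : Nx L B (C.xx k) (C.xx (k + 1)) :=
  C.nx_mk (C.xx k) fun v => FreeGroup.of (k + 1, v)

theorem Cn.map_xx {H : Type} [Group H] (F : FreeGroup (ℕ × V) →* H) (k : ℕ) (v : V) :
    F (C.xx (k + 1) v) = ev L (fun u => F (C.xx k u)) (C.ch v) *
      F (FreeGroup.of (k + 1, C.ka v)) := by
  show F (ev L (C.xx k) (C.ch v) * FreeGroup.of (k + 1, C.ka v)) = _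
  rw [map_mul, map_ev]

theorem Nx.map {H H' : Type} [Group H] [Group H'] (F : H →* H') {y y' : V → H}
    (h : Nx L B y y') : Nx L B (fun v => F (y v)) fun v => F (y' v) := by
  intro e he
  have h1 := congrArg F (h e he)
  rw [map_mul, map_pr] at h1
  exact h1

/-- the values on the generators of the levels -/
theorem Cn.lift_xx {H : Type} [Group H] (Y : ℤ → V → H) (hY : ∀ j, Nx L B (Y j) (Y (j + 1)))
    (c : ℤ) (k : ℕ) (v : V) :
    FreeGroup.lift (fun a : ℕ × V => Y (a.1 + c) a.2) (C.xx k v) = Y (k + c) v := by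
  induction k generalizing v with
  | zero =>
    show FreeGroup.lift (fun a : ℕ × V => Y (a.1 + c) a.2) (FreeGroup.of (0, v)) = _
    rw [FreeGroup.lift_apply_of]
  | succ k ih =>
    rw [C.map_xx, FreeGroup.lift_apply_of]
    simp only [ih]
    have h1 := C.val H _ _ (hY (k + c)) v
    rw [show ((k + 1 : ℕ) : ℤ) + c = k + c + 1 by push_cast; ring, h1]

theorem Cn.kil_xx (a : ℕ × V) (k : ℕ) (hk : k < a.1) (v : V) : kil a (C.xx k v) = C.xx k v := by
  induction k generalizing v with
  | zero =>
    refine kil_ne fun h => ?_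
    rw [← h] at hk
    exact absurd hk (lt_irrefl _)
  | succ k ih =>
    rw [C.map_xx, kil_ne fun h => by rw [← h] at hk; exact absurd hk (lt_irrefl _)]
    simp only [ih (by omega)]
    rfl

theorem Cn.kil_xx' (k : ℕ) (s v : V) (h : C.ka v ≠ s) :
    kil (k + 1, s) (C.xx (k + 1) v) = C.xx (k + 1) v := by
  rw [C.map_xx, kil_ne fun h' => h (Prod.mk.inj h').2]
  simp only [C.kil_xx (k + 1, s) k (Nat.lt_succ_self k)]
  rfl

open Classical in
/-- the generators, multiplied with a new letter in the component of `p` -/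
noncomputable def Cn.xh (p v : V) : Ex L.G :=
  if C.ka v = p then inA (L.gen v) * zz else inA (L.gen v)

theorem Cn.xh_ne {p v : V} (h : C.ka v ≠ p) : C.xh p v = inA (L.gen v) := if_neg h

theorem Cn.xh_eq {p v : V} (h : C.ka v = p) : C.xh p v = inA (L.gen v) * zz := if_pos h

/-- the conditions on the words -/
structure Cn.Wds (w : E → FreeGroup (V × V)) (ρ : E → ℕ) (pv : E → V) : Prop where
  inj : ∀ b ∈ B, ∀ b' ∈ B, ρ b = ρ b' → b = b'
  eqv : ∀ b ∈ B, Eqv L B b (w b)
  tri : ∀ b ∈ B, ∀ b' ∈ B, ρ b' < ρ b →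
    w b' ∈ wd fun a : V × V => C.ka a.1 ≠ pv b ∧ C.ka a.2 ≠ pv b
  tst : ∀ b ∈ B, ev2 (C.xh (pv b)) (w b) ≠ 1

/-- sequences which satisfy all relations except one, but not this one -/
def Sqs (L : LOG V E) (B : Set E) : Prop :=
  ∀ (p : ℕ), p.Prime → ∀ b ∈ B, ∃ y : ℤ → V → ZMod p, (∀ n, n < 0 → ∀ v, y n v = 0) ∧
    (∀ n e, e ≠ b → y n (L.ini e) + y (n + 1) (L.lab e) =
      y n (L.lab e) + y (n + 1) (L.ter e)) ∧
    ¬ ∀ n, y n (L.ini b) + y (n + 1) (L.lab b) = y n (L.lab b) + y (n + 1) (L.ter b)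

/-- the relators of the levels -/
noncomputable def Cn.rr (w : E → FreeGroup (V × V)) (i : ℕ × B) : FreeGroup (ℕ × V) :=
  ev2 (C.xx (i.1 + 1)) (w i.2.1)

theorem gen_nx (L : LOG V E) (B : Set E) : Nx L B L.gen L.gen := by
  intro e _
  unfold pr
  rw [mul_assoc, gen_rel]
  group

theorem Eqv.gen {b : E} {w : FreeGroup (V × V)} (h : Eqv L B b w) : ev2 L.gen w = 1 := by
  refine (h.const L.gen (gen_nx L B)).1 ?_
  unfold pr
  rw [mul_assoc, gen_rel]
  group

variable {C}

/-- the tower -/
theorem Cn.Wds.locInd {w : E → FreeGroup (V × V)} {ρ : E → ℕ} {pv : E → V} (hW : C.Wds w ρ pv)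
    (hS : Sqs L B) (S : Finset (ℕ × B)) :
    LocInd (PresentedGroup (C.rr w '' (S : Set (ℕ × B)))) := by
  classical
  let key : ℕ × B → ℕ ×ₗ ℕ := fun i => toLex (i.1, ρ i.2.1)
  have hlt : ∀ i j : ℕ × B, key i < key j → i.1 < j.1 ∨ (i.1 = j.1 ∧ ρ i.2.1 < ρ j.2.1) := by
    intro i j h
    rcases Prod.Lex.lt_iff.1 h with h1 | h1
    · exact Or.inl h1
    · exact Or.inr h1
  refine locInd_tower key ?_ (C.rr w) (fun i => (i.1 + 1, pv i.2.1)) ?_ ?_ ?_ S
  · rintro ⟨k, b⟩ ⟨k', b'⟩ h
    have h1 : (k, ρ b.1) = (k', ρ b'.1) := toLex.injective h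
    obtain ⟨h2, h3⟩ := Prod.mk.inj h1
    exact Prod.ext h2 (Subtype.ext (hW.inj b.1 b.2 b'.1 b'.2 h3))
  · rintro ⟨k, b, hb⟩ ⟨k', b', hb'⟩ h
    show kil (k' + 1, pv b') (ev2 (C.xx (k + 1)) (w b)) = _
    rw [map_ev2]
    rcases hlt _ _ h with h1 | ⟨h1, h2⟩
    · have h3 : k + 1 < ((k' + 1, pv b') : ℕ × V).1 := Nat.succ_lt_succ h1
      have h4 : (fun v => kil (k' + 1, pv b') (C.xx (k + 1) v)) = C.xx (k + 1) :=
        funext fun v => C.kil_xx _ _ h3 _
      rw [h4]
      rfl
    · simp only at h1 h2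
      subst h1
      refine ev2_congr (fun a he => ?_) (hW.tri b' hb' b hb h2)
      show (kil (k + 1, pv b') (C.xx (k + 1) a.1))⁻¹ * kil (k + 1, pv b') (C.xx (k + 1) a.2) =
        (C.xx (k + 1) a.1)⁻¹ * C.xx (k + 1) a.2
      rw [C.kil_xx' k _ _ he.1, C.kil_xx' k _ _ he.2]
  · rintro ⟨k, b, hb⟩
    let ψ : FreeGroup (ℕ × V) →* Ex L.G := FreeGroup.lift fun c =>
      if c = (k + 1, pv b) then inA (L.gen (pv b)) * zz else inA (L.gen c.2)
    have hψ1 : ∀ c, c ≠ (k + 1, pv b) → ψ (FreeGroup.of c) = inA (L.gen c.2) := by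
      intro c hc
      simp only [ψ]
      rw [FreeGroup.lift_apply_of, if_neg hc]
    have hψ2 : ψ (FreeGroup.of (k + 1, pv b)) = inA (L.gen (pv b)) * zz := by
      simp only [ψ]
      rw [FreeGroup.lift_apply_of, if_pos rfl]
    have hval : ∀ v, ev L L.gen (C.ch v) * L.gen (C.ka v) = L.gen v := fun v =>
      (C.val L.G _ _ (gen_nx L B) v).symm
    have hlow : ∀ j, j ≤ k → ∀ v, ψ (C.xx j v) = inA (L.gen v) := by
      intro j
      induction j with
      | zero =>
        intro _ v
        refine hψ1 (0, v) fun h => ?_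
        exact absurd (Prod.mk.inj h).1 (Nat.succ_ne_zero k).symm
      | succ j ih =>
        intro hj v
        rw [C.map_xx, hψ1 (j + 1, C.ka v) fun h => by
          have := (Prod.mk.inj h).1
          omega]
        simp only [ih (by omega)]
        rw [← map_ev, ← map_mul, hval]
    have htop : ∀ v, ψ (C.xx (k + 1) v) = C.xh (pv b) v := by
      intro v
      rw [C.map_xx]
      simp only [hlow k le_rfl]
      rw [← map_ev]
      unfold Cn.xh
      by_cases h : C.ka v = pv b
      · rw [if_pos h, h, hψ2, ← mul_assoc, ← map_mul, ← h, hval]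
      · rw [if_neg h, hψ1 _ fun h' => h (Prod.mk.inj h').2, ← map_mul, hval]
    refine ⟨L.G, inferInstance, ψ, fun c hc => ⟨_, hψ1 c hc⟩, ?_, ?_⟩
    · rintro _ ⟨⟨j, b', hb'⟩, hj, rfl⟩
      show ψ (ev2 (C.xx (j + 1)) (w b')) = 1
      rw [map_ev2]
      rcases hlt _ _ hj with h1 | ⟨h1, h2⟩
      · simp only at h1
        simp only [hlow (j + 1) (by omega)]
        rw [← map_ev2, (hW.eqv b' hb').gen, map_one]
      · simp only at h1 h2
        subst h1
        simp only [htop]
        rw [ev2_congr (x' := fun v => inA (L.gen v)) (fun a he => ?_) (hW.tri b hb b' hb' h2),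
          ← map_ev2, (hW.eqv b' hb').gen, map_one]
        show (C.xh (pv b) a.1)⁻¹ * C.xh (pv b) a.2 = (inA (L.gen a.1))⁻¹ * inA (L.gen a.2)
        rw [C.xh_ne he.1, C.xh_ne he.2]
    · intro g x hgx
      have h1 : ψ (C.rr w (k, ⟨b, hb⟩)) = ev2 (C.xh (pv b)) (w b) := by
        show ψ (ev2 (C.xx (k + 1)) (w b)) = _
        rw [map_ev2]
        simp only [htop]
      rw [h1] at hgx
      let rt : Ex L.G →* L.G := liftE (MonoidHom.id _) 1
      have h2 : rt (ev2 (C.xh (pv b)) (w b)) = 1 := by
        rw [map_ev2, ← (hW.eqv b hb).gen]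
        have h3 : (fun v => rt (C.xh (pv b) v)) = L.gen := by
          funext v
          have h4 : rt (inA (L.gen v)) = L.gen v := liftE_inA _ _ _
          have h5 : rt zz = 1 := liftE_zz _ _
          unfold Cn.xh
          split_ifs
          · rw [map_mul, h4, h5, mul_one]
          · exact h4
        rw [h3]
      have h3 := congrArg rt hgx
      have h4 : rt (inA x) = x := liftE_inA _ _ _
      rw [map_mul, map_mul, map_inv, h2, mul_one, mul_inv_cancel, h4] at h3
      rw [← h3, map_one, mul_inv_eq_one, mul_eq_left] at hgx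
      exact hW.tst b hb hgx
  · rintro ⟨K, b, hb⟩ p hp
    have : Fact p.Prime := ⟨hp⟩
    by_contra hno
    push Not at hno
    obtain ⟨y, hy1, hy2, hy3⟩ := hS p hp b hb
    let Y : ℤ → V → Multiplicative (ZMod p) := fun m v => Multiplicative.ofAdd (y m v)
    have hrel : ∀ m e, (y m (L.ini e) + y (m + 1) (L.lab e) =
        y m (L.lab e) + y (m + 1) (L.ter e)) ↔
          Y (m + 1) (L.ter e) = pr L (Y m) e * Y (m + 1) (L.lab e) := by
      intro m e
      have h1 : pr L (Y m) e * Y (m + 1) (L.lab e) =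
          Multiplicative.ofAdd (-(y m (L.lab e)) + y m (L.ini e) + y (m + 1) (L.lab e)) := rfl
      rw [h1]
      constructor
      · intro h
        refine congrArg Multiplicative.ofAdd ?_
        linear_combination -h
      · intro h
        have h2 : y (m + 1) (L.ter e) =
          -(y m (L.lab e)) + y m (L.ini e) + y (m + 1) (L.lab e) := Multiplicative.ofAdd.injective h
        linear_combination -h2
    have hN : ∀ m, Nx L B (Y m) (Y (m + 1)) := fun m e he =>
      (hrel m e).1 (hy2 m e fun h => he (h ▸ hb))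
    have hoth : ∀ b' ∈ B, b' ≠ b → ∀ m, ev2 (Y m) (w b') = 1 := fun b' hb' hne =>
      (hW.eqv b' hb' _ Y hN).1 fun m => (hrel m b').1 (hy2 m b' hne)
    apply hy3
    intro m
    rw [hrel]
    refine (hW.eqv b hb _ Y hN).2 ?_ m
    have key2 : ∀ (N : ℕ) (m : ℤ), m < N → ev2 (Y m) (w b) = 1 := by
      intro N
      induction N with
      | zero =>
        intro m hm
        refine ev2_one _ 1 (fun v => ?_) _
        show Multiplicative.ofAdd (y m v) = 1
        rw [hy1 m (by simpa using hm), ofAdd_zero]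
      | succ N ih =>
        intro m hm
        rcases (show m < N ∨ m = N by push_cast at hm; omega) with h | h
        · exact ih m h
        · subst h
          let φ : FreeGroup (ℕ × V) →* Multiplicative (ZMod p) :=
            FreeGroup.lift fun a : ℕ × V => Y (a.1 + ((N : ℤ) - (K + 1))) a.2
          have hφ : ∀ (k : ℕ) (b' : E), φ (ev2 (C.xx (k + 1)) (w b')) =
              ev2 (Y ((N : ℤ) + k - K)) (w b') := by
            intro k b'
            rw [map_ev2]
            have h4 : (fun v => φ (C.xx (k + 1) v)) = Y ((N : ℤ) + k - K) := by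
              funext v
              simp only [φ]
              rw [C.lift_xx Y hN]
              congr 1
              push_cast
              ring
            rw [h4]
          have h1 := hno φ (by
            rintro ⟨k, b', hb'⟩ hj
            show φ (ev2 (C.xx (k + 1)) (w b')) = 1
            rw [hφ]
            by_cases hbb : b' = b
            · subst hbb
              refine ih _ ?_
              rcases hlt _ _ hj with h2 | ⟨_, h2⟩
              · simp only at h2
                omega
              · exact absurd h2 (lt_irrefl _)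
            · exact hoth b' hb' hbb _)
          have h2 : φ (ev2 (C.xx (K + 1)) (w b)) = 1 := h1
          rw [hφ, add_sub_cancel_right] at h2
          exact h2
    intro m
    exact key2 (m.toNat + 1) m (by omega)

section final

/-- the heights on the infinite cyclic groups -/
def hZ (V : Type) : Hg (fun _ : V => Multiplicative ℤ) where
  ht _ := MonoidHom.id _
  t _ := Multiplicative.ofAdd 1
  h1 _ := rfl

/-- the letters -/
def ox (v : V) : CoprodI (fun _ : V => Multiplicative ℤ) := of (i := v) (Multiplicative.ofAdd 1)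

theorem th_ox (v : V) : ((hZ V).th (ox v)).toAdd = 1 := by
  unfold ox
  rw [(hZ V).th_of]
  rfl

theorem th_ox' (v : V) : (hZ V).th (ox v) = Multiplicative.ofAdd 1 :=
  Multiplicative.toAdd.injective (th_ox v)

theorem th_ev (w : FreeGroup (V × V)) : (hZ V).th (ev2 ox w) = 1 := by
  rw [map_ev2]
  exact ev2_one _ _ th_ox' _

theorem Jm_ev {X : Type} [Group X] (α : ∀ i, ((hZ V).ht i).ker →* X) (Y : V → ℤ → X)
    (w : FreeGroup (V × V)) (k : ℤ) :
    Jm α Y (ev2 ox w) (k + 1) = ev2 (fun v => Jm α Y (ox v) k) w := by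
  have hw : w ∈ wd fun _ : V × V => True := by
    have h1 : (wd fun _ : V × V => True) = (⊤ : Subgroup (FreeGroup (V × V))) := by
      unfold wd
      rw [← FreeGroup.closure_range_of]
      congr 1
      ext x
      constructor
      · rintro ⟨e, _, rfl⟩
        exact ⟨e, rfl⟩
      · rintro ⟨e, rfl⟩
        exact ⟨e, trivial, rfl⟩
    rw [h1]
    exact Subgroup.mem_top w
  refine Subgroup.closure_induction (p := fun w _ =>
    Jm α Y (ev2 ox w) (k + 1) = ev2 (fun v => Jm α Y (ox v) k) w) ?_ ?_ ?_ ?_ hw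
  · rintro _ ⟨e, _, rfl⟩
    rw [ev2_of, ev2_of]
    unfold pr2
    rw [Jm_mul, Jm_inv, map_inv, toAdd_inv, th_ox, show k + 1 - 1 = k by ring,
      show k + 1 + -1 = k by ring]
  · rw [map_one, map_one, Jm_one]
  · intro a b _ _ ha hb
    rw [map_mul, map_mul, Jm_mul, th_ev, toAdd_one, add_zero, ha, hb]
  · intro a _ ha
    rw [map_inv, map_inv, Jm_inv, th_ev, toAdd_one, sub_zero, ha]

open Classical in
/-- **The main theorem.** -/
theorem Cn.Wds.main [Finite E] {w : E → FreeGroup (V × V)} {ρ : E → ℕ} {pv : E → V}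
    (hW : C.Wds w ρ pv) (hS : Sqs L B) [Nonempty V] : LocInd L.G := by
  have : Fintype E := Fintype.ofFinite E
  let π : CoprodI (fun _ : V => Multiplicative ℤ) →* L.G :=
    Monoid.CoprodI.lift fun v => zpowersHom _ (L.gen v)
  have hπ : ∀ v, π (ox v) = L.gen v := by
    intro v
    have h1 : π (ox v) = zpowersHom _ (L.gen v) (Multiplicative.ofAdd (1 : ℤ)) :=
      Monoid.CoprodI.lift_of _ _
    rw [h1, zpowersHom_apply]
    simp
  let ρ' : E → CoprodI (fun _ : V => Multiplicative ℤ) := fun e =>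
    if e ∈ B then ox (L.ter e) * ev2 ox (w e) * (ox (L.ter e))⁻¹
    else ox (L.ini e) * ox (L.lab e) * (ox (L.ter e))⁻¹ * (ox (L.lab e))⁻¹
  have hgenW : ∀ b ∈ B, ev2 L.gen (w b) = 1 := fun b hb => (hW.eqv b hb).gen
  have hπew : ∀ w, π (ev2 ox w) = ev2 L.gen w := by
    intro w
    rw [map_ev2]
    have h1 : (fun v => π (ox v)) = L.gen := funext hπ
    rw [h1]
  have hπρ : ∀ e, π (ρ' e) = 1 := by
    intro e
    by_cases he : e ∈ B
    · simp only [ρ', if_pos he]
      rw [map_mul, map_mul, hπew, hgenW e he, mul_one, map_inv, mul_inv_cancel]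
    · simp only [ρ', if_neg he]
      rw [map_mul, map_mul, map_mul, map_inv, map_inv, hπ, hπ, hπ, gen_rel,
        mul_inv_cancel_right, mul_inv_cancel]
  refine locInd_of_intv (T := hZ V) ρ' ?_ (Classical.arbitrary V) π ?_ ?_ ?_
  · intro e
    have h1 : (hZ V).th (ρ' e) = 1 := by
      by_cases he : e ∈ B
      · simp only [ρ', if_pos he]
        rw [map_mul, map_mul, map_inv, th_ev, mul_one, mul_inv_cancel]
      · simp only [ρ', if_neg he]
        rw [map_mul, map_mul, map_mul, map_inv, map_inv, th_ox', th_ox', th_ox',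
          mul_inv_cancel_right, mul_inv_cancel]
    rw [h1, toAdd_one]
  · -- surjective
    intro g
    have h1 : (⊤ : Subgroup L.G) ≤ π.range := by
      rw [← PresentedGroup.closure_range_of, Subgroup.closure_le]
      rintro _ ⟨v, rfl⟩
      exact ⟨ox v, hπ v⟩
    exact h1 (Subgroup.mem_top g)
  · -- the kernel
    apply le_antisymm
    · set N := Subgroup.normalClosure (Set.range ρ') with hNdef
      let q := QuotientGroup.mk' N
      have hq : ∀ e, q (ρ' e) = 1 := fun e =>
        (QuotientGroup.eq_one_iff _).2 (Subgroup.subset_normalClosure ⟨e, rfl⟩)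
      let x : V → _ ⧸ N := fun v => q (ox v)
      have hx1 : ∀ e, e ∉ B → x (L.ini e) * x (L.lab e) = x (L.lab e) * x (L.ter e) := by
        intro e he
        have h1 := hq e
        simp only [ρ', if_neg he] at h1
        rw [map_mul, map_mul, map_mul, map_inv, map_inv, mul_inv_eq_one, mul_inv_eq_iff_eq_mul]
          at h1
        exact h1
      have hxN : Nx L B x x := by
        intro e he
        unfold pr
        rw [mul_assoc, hx1 e he]
        group
      have hx2 : ∀ e ∈ B, x (L.ini e) * x (L.lab e) = x (L.lab e) * x (L.ter e) := by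
        intro e he
        have h1 := hq e
        simp only [ρ', if_pos he] at h1
        rw [map_mul, map_mul, map_inv, mul_inv_eq_one, mul_eq_left, map_ev2] at h1
        have h2 := ((hW.eqv e he).const x hxN).2 h1
        unfold pr at h2
        rw [h2]
        group
      let ψ : L.G →* _ ⧸ N := liftG L x fun e => by
        by_cases he : e ∈ B
        · exact hx2 e he
        · exact hx1 e he
      have h3 : ψ.comp π = q := by
        refine Monoid.CoprodI.ext_hom _ _ fun v => ?_
        refine MonoidHom.ext_mint ?_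
        show ψ (π (ox v)) = q (ox v)
        rw [hπ]
        exact liftG_gen _ _ _ _
      intro g hg
      have h4 := DFunLike.congr_fun h3 g
      have h5 : ψ (π g) = q g := h4
      rw [MonoidHom.mem_ker.1 hg, map_one] at h5
      exact (QuotientGroup.eq_one_iff _).1 h5.symm
    · refine Subgroup.normalClosure_le_normal ?_
      rintro _ ⟨e, rfl⟩
      exact hπρ e
  · -- the groups for the intervals
    intro m
    let S : Finset (ℕ × B) := Finset.range (m + 1) ×ˢ Finset.univ
    let X := PresentedGroup (C.rr w '' (S : Set (ℕ × B)))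
    let p : FreeGroup (ℕ × V) →* X := pj _
    let yy : V → ℕ → X := fun v j => Nat.rec 1 (fun j u => u * p (C.xx (j + 1) v)) j
    have yy0 : ∀ v, yy v 0 = 1 := fun v => rfl
    have yyS : ∀ v j, yy v (j + 1) = yy v j * p (C.xx (j + 1) v) := fun v j => rfl
    let Y : V → ℤ → X := fun v k => if 0 ≤ k then yy v k.toNat else (p (C.xx 1 v)) ^ k
    have hY0 : ∀ v (k : ℕ), Y v k = yy v k := by
      intro v k
      simp only [Y]
      rw [if_pos (by omega), Int.toNat_natCast]
    have hYS : ∀ v (k : ℕ), Y v ((k : ℤ) + 1) = yy v (k + 1) := fun v k => hY0 v (k + 1)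
    have hYn : ∀ v (k : ℤ), k < 0 → Y v k = (p (C.xx 1 v)) ^ k := fun v k hk =>
      if_neg (by omega)
    let Φ : FreeGroup (ℕ × V) →* L.G := FreeGroup.lift fun a : ℕ × V => L.gen a.2
    have hΦ : ∀ k v, Φ (C.xx k v) = L.gen v := fun k v =>
      C.lift_xx (fun _ => L.gen) (fun _ => gen_nx L B) 0 k v
    let F : X →* L.G := lf Φ (by
      rintro _ ⟨⟨k, b⟩, _, rfl⟩
      show Φ (ev2 (C.xx (k + 1)) (w b.1)) = 1
      rw [map_ev2]
      simp only [hΦ]
      exact hgenW b.1 b.2)
    have hF : ∀ k v, F (p (C.xx k v)) = L.gen v := hΦ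
    have hJ : ∀ (v : V) (k : ℕ), Jm (T := hZ V) (fun _ => 1) Y (ox v) k =
        p (C.xx (k + 1) v) := by
      intro v k
      unfold ox
      rw [Jm_of]
      have h1 := cc_t (T := hZ V) (fun _ => (1 : _ →* X)) Y v k
      have h2 : cc (hZ V) (fun _ => (1 : _ →* X)) Y v (k : ℤ) (Multiplicative.ofAdd 1) =
        (Y v k)⁻¹ * Y v (k + 1) := h1
      rw [h2, hY0, hYS, yyS, inv_mul_cancel_left]
    refine ⟨X, inferInstance, fun _ => 1, Y, F, hW.locInd hS S, ?_, ?_, ?_⟩
    · intro e k h0 hk
      obtain ⟨j, rfl⟩ := Int.eq_ofNat_of_zero_le h0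
      have hj : j < m + 1 := by omega
      by_cases he : e ∈ B
      · simp only [ρ', if_pos he]
        rw [Jm_mul, Jm_mul, Jm_inv, th_ox, map_mul, toAdd_mul, th_ev, th_ox, toAdd_one, Jm_ev,
          show (j : ℤ) + (1 + 0) - 1 = j by ring, hJ]
        have h1 : ev2 (fun v => Jm (T := hZ V) (fun _ => 1) Y (ox v) j) (w e) = 1 := by
          simp only [hJ]
          rw [← map_ev2]
          refine pj_one _ ⟨(j, ⟨e, he⟩), ?_, rfl⟩
          exact Finset.mem_coe.2 (Finset.mem_product.2 ⟨Finset.mem_range.2 hj,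
            Finset.mem_univ _⟩)
        rw [h1, mul_one, mul_inv_cancel]
      · simp only [ρ', if_neg he]
        have hS : (j : ℤ) + 1 = ((j + 1 : ℕ) : ℤ) := by push_cast; ring
        rw [Jm_mul, Jm_mul, Jm_mul, Jm_inv, Jm_inv]
        simp only [map_mul, map_inv, toAdd_mul, toAdd_inv, th_ox]
        rw [show (j : ℤ) + (1 + 1) - 1 = j + 1 by ring,
          show (j : ℤ) + (1 + 1 + -1) - 1 = j by ring, hS, hJ, hJ, hJ, hJ]
        have h1 := Nx.map p (C.nx_xx (j + 1)) e he
        simp only at h1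
        rw [h1]
        unfold pr
        group
    · rintro v ⟨g, hg⟩
      have h1 : g = 1 := hg
      subst h1
      rw [MonoidHom.one_apply, map_one, map_one, map_one]
    · intro v k
      have h1 : π (of ((hZ V).t v)) = L.gen v := hπ v
      rw [h1]
      rcases (show 0 ≤ k ∨ k < 0 by omega) with h | h
      · obtain ⟨j, rfl⟩ := Int.eq_ofNat_of_zero_le h
        rw [hY0, zpow_natCast]
        induction j with
        | zero => rw [yy0, map_one, pow_zero]
        | succ j ih => rw [yyS, map_mul, ih (by omega), hF, pow_succ]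
      · rw [hYn v k h, map_zpow, hF]

end final

end Pool.Agent.V5helper80.Rt
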